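import Pool.Agent.QC.Ev.LA
import Pool.Agent.QC.Red.Real

/-!
# MP_7c50a9_lc, 5.1: real second derivatives at a real point
-/

namespace Pool.Agent.QC

open Matrix S4 MvPolynomial Red
open scoped ContDiff

theorem fderiv_fderiv_eval {m : ℕ} (P : MvPolynomial (Fin m) ℝ) (v : Fin m → ℝ) (i j : Fin m) :
    fderiv ℝ (fderiv ℝ (fun x : Fin m → ℝ => eval x P)) v (Pi.single i 1) (Pi.single j 1) =
      eval v (pderiv i (pderiv j P)) := by
  have h1 : DifferentiableAt ℝ (fderiv ℝ (fun x : Fin m → ℝ => eval x P)) v :=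
    ((contDiff_eval P (k := 2)).fderiv_right (m := 1) (by norm_num)).differentiable (by norm_num) v
  have h2 : fderiv ℝ (fun x => fderiv ℝ (fun x : Fin m → ℝ => eval x P) x (Pi.single j 1)) v
      (Pi.single i 1) =
      fderiv ℝ (fderiv ℝ (fun x : Fin m → ℝ => eval x P)) v (Pi.single i 1) (Pi.single j 1) := by
    have h3 := (ContinuousLinearMap.apply ℝ ℝ (Pi.single j (1 : ℝ))).hasFDerivAt.comp v
      h1.hasFDerivAt
    have h4 := h3.fderiv
    have h5 : ((ContinuousLinearMap.apply ℝ ℝ (Pi.single j (1 : ℝ))) ∘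
        (fderiv ℝ (fun x : Fin m → ℝ => eval x P))) =
        fun x => fderiv ℝ (fun x : Fin m → ℝ => eval x P) x (Pi.single j 1) := rfl
    rw [h5] at h4
    rw [h4]
    rfl
  rw [← h2]
  have h6 : (fun x => fderiv ℝ (fun x : Fin m → ℝ => eval x P) x (Pi.single j 1)) =
      fun x => eval x (pderiv j P) := by
    funext x
    exact fderiv_eval_single P x j
  rw [h6, fderiv_eval_single]

variable {n l : ℕ}

theorem fR_zero (q : RTup n l) (x : Fin (n + 1) → ℝ) : fR 0 0 q x = eval x (f0R q) := by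
  rw [eval_f0R, fR]
  ring

theorem fR_zero_fun (q : RTup n l) : fR 0 0 q = fun x => eval x (f0R q) :=
  funext (fR_zero q)

theorem hess_real (q : RTup n l) (v : Fin (n + 1) → ℝ) (i j : Fin (n + 1)) :
    hess (f0 (tC q)) (xC v) i j = ((eval v (pderiv i (pderiv j (f0R q))) : ℝ) : ℂ) := by
  rw [hess, ← map_f0R, pderiv_map, pderiv_map]
  exact eval_map_ofReal _ _

/-- The real Hessian matrix. -/
noncomputable def AR (q : RTup n l) (v : Fin (n + 1) → ℝ) :
    Matrix (Fin (n + 1)) (Fin (n + 1)) ℝ :=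
  fun i j => (hess (f0 (tC q)) (xC v) i j).re

theorem AR_eq (q : RTup n l) (v : Fin (n + 1) → ℝ) (i j : Fin (n + 1)) :
    AR q v i j = fderiv ℝ (fderiv ℝ (fR 0 0 q)) v (Pi.single i 1) (Pi.single j 1) := by
  rw [fR_zero_fun, fderiv_fderiv_eval, AR, hess_real, Complex.ofReal_re]

theorem contDiff_fR_zero (q : RTup n l) {k : WithTop ℕ∞} : ContDiff ℝ k (fR 0 0 q) := by
  rw [fR_zero_fun]
  exact contDiff_eval _

theorem AR_isHermitian (q : RTup n l) (v : Fin (n + 1) → ℝ) : (AR q v).IsHermitian :=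
  hess_isHermitian (contDiff_fR_zero q).contDiffAt (AR_eq q v)

theorem AR_isSymm (q : RTup n l) (v : Fin (n + 1) → ℝ) : (AR q v).IsSymm := by
  have h := AR_isHermitian q v
  rw [Matrix.IsHermitian, Matrix.conjTranspose_eq_transpose_of_trivial] at h
  exact h

theorem hess_eq_map (q : RTup n l) (v : Fin (n + 1) → ℝ) :
    hess (f0 (tC q)) (xC v) = (AR q v).map Complex.ofReal := by
  ext i j
  rw [Matrix.map_apply, AR, hess_real, Complex.ofReal_re]

theorem AR_det {q : RTup n l} {v : Fin (n + 1) → ℝ} (h : (hess (f0 (tC q)) (xC v)).det ≠ 0) :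
    (AR q v).det ≠ 0 := by
  intro h0
  apply h
  rw [hess_eq_map]
  have := (Complex.ofRealHom.map_det (AR q v)).symm
  simp only [RingHom.mapMatrix_apply] at this
  have h2 : (AR q v).map Complex.ofReal = (AR q v).map Complex.ofRealHom := rfl
  rw [h2, this, h0, map_zero]

/-- The product of the positive factors. -/
noncomputable def piR (q : RTup n l) (v : Fin (n + 1) → ℝ) : ℝ := ∏ m : Fin l, qvR (q m.succ) v

theorem HR_eq (q : RTup n l) (v : Fin (n + 1) → ℝ) : HR q v = (piR q v)⁻¹ • AR q v := by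
  ext i j
  rw [HR, Matrix.smul_apply, smul_eq_mul, AR, piR, div_eq_mul_inv, mul_comm]

theorem piR_pos {q : RTup n l} {v : Fin (n + 1) → ℝ} (h : inOm q v) : 0 < piR q v :=
  Finset.prod_pos fun m _ => h m

theorem addT_succ {R : Type*} [CommRing R] (q : Fin (l + 1) → QP R (n + 1)) (t : R) (m : Fin l) :
    addT q t m.succ = q m.succ := by
  simp [addT, Fin.succ_ne_zero]

theorem addT_ne_zero {R : Type*} [CommRing R] (q : Fin (l + 1) → QP R (n + 1)) (t : R)
    {m : Fin (l + 1)} (hm : m ≠ 0) : addT q t m = q m := by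
  simp [addT, hm]

theorem qvR_addT_zero (q : RTup n l) (t : ℝ) (x : Fin (n + 1) → ℝ) :
    qvR (addT q t 0) x = qvR (q 0) x + t := by
  simp [addT, qvR]
  ring

theorem inOm_addT (q : RTup n l) (t : ℝ) (x : Fin (n + 1) → ℝ) :
    inOm (addT q t) x ↔ inOm q x := by
  simp only [inOm, addT_succ]

theorem piR_addT (q : RTup n l) (t : ℝ) (x : Fin (n + 1) → ℝ) :
    piR (addT q t) x = piR q x := by
  simp only [piR, addT_succ]

theorem fR_zero_addT (q : RTup n l) (t : ℝ) (x : Fin (n + 1) → ℝ) :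
    fR 0 0 (addT q t) x = (qvR (q 0) x + t) * piR q x - 1 := by
  rw [fR, Fin.prod_univ_succ, qvR_addT_zero]
  simp only [addT_succ]
  rw [← piR]
  ring

theorem negDef_HR {q : RTup n l} {v : Fin (n + 1) → ℝ} (h : inOm q v) :
    NegDef (HR q v) ↔ NegDef (AR q v) := by
  rw [HR_eq]
  exact negDef_smul (inv_pos.mpr (piR_pos h))

theorem onePos_HR {q : RTup n l} {v : Fin (n + 1) → ℝ} (h : inOm q v) :
    OnePos (HR q v) ↔ OnePos (AR q v) := by
  rw [HR_eq]
  exact onePos_smul (inv_pos.mpr (piR_pos h))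

theorem HR_isSymm (q : RTup n l) (v : Fin (n + 1) → ℝ) : (HR q v).IsSymm := by
  rw [HR_eq]
  exact (AR_isSymm q v).smul _

end Pool.Agent.QC
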