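import Pool.Agent.QC.Ev.Defs
import Pool.Agent.QC.Ev.RealD
import Pool.Agent.QC.Red.Mono
import Pool.Agent.QC.S1.CompBij
import Pool.Agent.QC.S4.FunFam

/-!
# MP_7c50a9_lc, 4.1: components, compact levels, frames
-/

namespace Pool.Agent.QC.Ev

open MvPolynomial Filter Topology Set S4

variable {n l : ℕ}

theorem Cmp_eq_comps {X : Type*} [TopologicalSpace X] (W : Set X) : Cmp W = comps W := by
  ext U
  constructor
  · rintro ⟨x, hx, rfl⟩
    exact ⟨x, hx, rfl⟩
  · rintro ⟨x, hx, rfl⟩
    exact ⟨x, hx, rfl⟩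

/-- The bijection between the connected components of the subspace and `Cmp`. -/
noncomputable def cmpMap {X : Type*} [TopologicalSpace X] (W : Set X) :
    ConnectedComponents W → Cmp W :=
  fun c => ⟨connectedComponentIn W (Quotient.out c : W), _, (Quotient.out c : W).2, rfl⟩

theorem cmpMap_bijective {X : Type*} [TopologicalSpace X] (W : Set X) :
    Function.Bijective (cmpMap W) := by
  have key : ∀ a b : W, (ConnectedComponents.mk a = ConnectedComponents.mk b) ↔
      (b : X) ∈ connectedComponentIn W a := fun a b => S1.connectedComponents_eq_iff a b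
  constructor
  · intro c d hcd
    have h1 : connectedComponentIn W (Quotient.out c : W) =
        connectedComponentIn W (Quotient.out d : W) := congrArg Subtype.val hcd
    have h2 : ((Quotient.out d : W) : X) ∈ connectedComponentIn W (Quotient.out c : W) := by
      rw [h1]
      exact mem_connectedComponentIn (Quotient.out d : W).2
    have h3 := (key _ _).mpr h2
    have e1 : ConnectedComponents.mk (Quotient.out c : W) = c := Quotient.out_eq c
    have e2 : ConnectedComponents.mk (Quotient.out d : W) = d := Quotient.out_eq d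
    rwa [e1, e2] at h3
  · rintro ⟨U, x, hx, rfl⟩
    refine ⟨ConnectedComponents.mk ⟨x, hx⟩, Subtype.ext ?_⟩
    have e1 : ConnectedComponents.mk
        (Quotient.out (ConnectedComponents.mk (⟨x, hx⟩ : W)) : W) =
        ConnectedComponents.mk (⟨x, hx⟩ : W) := Quotient.out_eq _
    have h2 := (key _ _).mp e1
    exact connectedComponentIn_eq h2

theorem card_Cmp' {X : Type*} [TopologicalSpace X] (W : Set X) :
    Nat.card (ConnectedComponents W) = (Cmp W).ncard := by
  rw [← Nat.card_coe_set_eq]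
  exact Nat.card_congr (Equiv.ofBijective _ (cmpMap_bijective W))

theorem finite_Cmp {X : Type*} [TopologicalSpace X] {W : Set X}
    (h : Finite (ConnectedComponents W)) : (Cmp W).Finite := by
  have : Finite (Cmp W) := Finite.of_surjective _ (cmpMap_bijective W).2
  exact Set.toFinite _

theorem card_Cmp {m : ℕ} {W : Set (Fin m → ℝ)} (_hW : IsOpen W) :
    Nat.card (ConnectedComponents W) = (Cmp W).ncard := card_Cmp' W

/-! ## The sets `Omega`, `W_t` -/

theorem continuous_qvR {N : ℕ} (p : QP ℝ N) : Continuous (qvR p) :=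
  (Red.contDiff_qvR p (k := 0)).continuous

theorem isOpen_inOm (q : RTup n l) : IsOpen {x | inOm q x} := by
  have : {x | inOm q x} = ⋂ m : Fin l, {x | 0 < qvR (q m.succ) x} := by
    ext x
    simp [inOm]
  rw [this]
  exact isOpen_iInter_of_finite fun m => isOpen_lt continuous_const (continuous_qvR _)

theorem continuous_piR (q : RTup n l) : Continuous (piR q) :=
  continuous_finsetProd _ fun m _ => continuous_qvR (q m.succ)

theorem mem_Wset {q : RTup n l} {t : ℝ} {x : Fin (n + 1) → ℝ} :
    x ∈ Wset q t ↔ inOm q x ∧ 0 < fR 0 0 (addT q t) x := by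
  refine and_congr_left' ?_
  constructor
  · exact fun h m => h m.succ (Fin.succ_ne_zero m)
  · intro h m hm
    obtain ⟨k, rfl⟩ := Fin.exists_succ_eq.mpr hm
    exact h k

/-- The domain of the family `t ↦ W_t`. -/
def OO (q : RTup n l) : Set (ℝ × (Fin (n + 1) → ℝ)) := {p | inOm q p.2}

/-- The family of functions. -/
noncomputable def ff (q : RTup n l) (p : ℝ × (Fin (n + 1) → ℝ)) : ℝ := fR 0 0 (addT q p.1) p.2

theorem ff_eq (q : RTup n l) (p : ℝ × (Fin (n + 1) → ℝ)) :
    ff q p = (qvR (q 0) p.2 + p.1) * piR q p.2 - 1 := fR_zero_addT q p.1 p.2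

theorem continuous_ff (q : RTup n l) : Continuous (ff q) := by
  have h1 := (continuous_qvR (q 0)).comp (continuous_snd (X := ℝ) (Y := Fin (n + 1) → ℝ))
  have h2 := (continuous_piR q).comp (continuous_snd (X := ℝ) (Y := Fin (n + 1) → ℝ))
  have : ff q = fun p => (qvR (q 0) p.2 + p.1) * piR q p.2 - 1 := funext (ff_eq q)
  rw [this]
  exact ((h1.add continuous_fst).mul h2).sub continuous_const

theorem isOpen_OO (q : RTup n l) : IsOpen (OO q) :=
  (isOpen_inOm q).preimage continuous_snd

theorem Wset_eq (q : RTup n l) (t : ℝ) : Wset q t = WW (OO q) (ff q) t := by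
  ext x
  rw [mem_Wset]
  rfl

theorem isOpen_Wset (q : RTup n l) (t : ℝ) : IsOpen (Wset q t) := by
  rw [Wset_eq]
  exact isOpen_WW (isOpen_OO q) (continuous_ff q).continuousOn t

theorem ff_mono {q : RTup n l} {s t : ℝ} (hst : s < t) {x : Fin (n + 1) → ℝ} (hx : inOm q x) :
    ff q (s, x) < ff q (t, x) := by
  rw [ff_eq, ff_eq]
  have := mul_lt_mul_of_pos_right (add_lt_add_left hst (qvR (q 0) x)) (piR_pos hx)
  linarith

theorem ff_mono' {q : RTup n l} {s t : ℝ} (hst : s ≤ t) {x : Fin (n + 1) → ℝ} (hx : inOm q x) :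
    ff q (s, x) ≤ ff q (t, x) := by
  rcases hst.eq_or_lt with rfl | h
  · exact le_rfl
  · exact (ff_mono h hx).le

/-- Compactness of levels. -/
theorem compLev {q : RTup n l} (h : IsCompact {x | 0 ≤ qvR (q 0) x}) : CompLev q := by
  intro t ht
  have heq : {x | inOm q x ∧ 0 ≤ fR 0 0 (addT q t) x} =
      {x | 0 ≤ qvR (q 0) x} ∩ ((⋂ m : Fin l, {x | 0 ≤ qvR (q m.succ) x}) ∩
        {x | 0 ≤ ff q (t, x)}) := by
    ext x
    constructor
    · rintro ⟨h1, h2⟩
      refine ⟨?_, ?_, h2⟩
      · have h3 : 0 ≤ ff q (t, x) := h2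
        rw [ff_eq] at h3
        simp only at h3
        have h4 := piR_pos h1
        show 0 ≤ qvR (q 0) x
        by_contra hcon
        push Not at hcon
        have : (qvR (q 0) x + t) * piR q x ≤ 0 :=
          mul_nonpos_of_nonpos_of_nonneg (by linarith) h4.le
        linarith
      · exact mem_iInter.mpr fun m => (h1 m).le
    · rintro ⟨-, h2, h3⟩
      refine ⟨fun m => ?_, h3⟩
      have h4 := mem_iInter.mp h2 m
      refine lt_of_le_of_ne h4 fun h5 => ?_
      have h6 : piR q x = 0 := Finset.prod_eq_zero (Finset.mem_univ m) h5.symm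
      have h7 : 0 ≤ ff q (t, x) := h3
      rw [ff_eq] at h7
      simp only [h6, mul_zero] at h7
      linarith
  rw [heq]
  refine h.inter_right (IsClosed.inter (isClosed_iInter fun m => ?_) ?_)
  · exact isClosed_le continuous_const (continuous_qvR _)
  · have hc : Continuous fun x : Fin (n + 1) → ℝ => ff q (t, x) :=
      (continuous_ff q).comp (by fun_prop)
    exact isClosed_le continuous_const hc

/-- The monotone family. -/
theorem funFam {q : RTup n l} (h : CompLev q) {s₀ s₁ : ℝ} (hs : s₀ ≤ s₁) (hs₁ : s₁ ≤ 0) :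
    FunFam s₀ s₁ (OO q) (ff q) where
  le := hs
  isOpen := isOpen_OO q
  cont := (continuous_ff q).continuousOn
  strict s _ t _ hst x hx h0 := ⟨hx, h0.trans_lt (ff_mono hst hx)⟩
  compact := by
    have h1 : IsCompact ((Icc s₀ s₁ ×ˢ {x | inOm q x ∧ 0 ≤ fR 0 0 (addT q s₁) x}) ∩
        {p | 0 ≤ ff q p}) :=
      (isCompact_Icc.prod (h s₁ hs₁)).inter_right (isClosed_le continuous_const (continuous_ff q))
    convert h1 using 1
    ext ⟨s, x⟩
    constructor
    · rintro ⟨h2, h3, h4⟩
      exact ⟨⟨h3, h2, h4.trans (ff_mono' h3.2 h2)⟩, h4⟩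
    · rintro ⟨⟨h3, h2, -⟩, h4⟩
      exact ⟨h2, h3, h4⟩

theorem strict_ff (q : RTup n l) (s : ℝ) (x : Fin (n + 1) → ℝ) :
    HasStrictFDerivAt (fun y => ff q (s, y)) (fderiv ℝ (fR 0 0 (addT q s)) x) x :=
  ((contDiff_fR_zero (addT q s) (k := 1)).contDiffAt).hasStrictFDerivAt (by simp)

/-- Real points of `Sing`. -/
theorem sing_iff (q : RTup n l) (x : Fin (n + 1) → ℝ) :
    xC x ∈ SingF (f0 (tC q)) ↔ fR 0 0 q x = 0 ∧ fderiv ℝ (fR 0 0 q) x = 0 := by
  have h1 : eval (xC x) (f0 (tC q)) = ((fR 0 0 q x : ℝ) : ℂ) := by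
    have := Red.eval_f0 q x
    rw [fR_zero, Red.eval_f0R]
    exact this
  have h2 : ∀ i, eval (xC x) (pderiv i (f0 (tC q))) =
      ((fderiv ℝ (fR 0 0 q) x (Pi.single i 1) : ℝ) : ℂ) := by
    intro i
    rw [fR_zero_fun, Red.fderiv_eval_single, ← Red.map_f0R, pderiv_map]
    exact Red.eval_map_ofReal _ _
  constructor
  · rintro ⟨h3, h4⟩
    refine ⟨?_, ?_⟩
    · rw [h1] at h3
      exact_mod_cast h3
    · have h5 : ∀ i, fderiv ℝ (fR 0 0 q) x (Pi.single i 1) = 0 := by
        intro i
        have := h4 i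
        rw [h2] at this
        exact_mod_cast this
      have h6 : (fderiv ℝ (fR 0 0 q) x : (Fin (n + 1) → ℝ) →ₗ[ℝ] ℝ) = 0 := by
        refine LinearMap.pi_ext' fun i => ?_
        ext
        simpa using h5 i
      exact ContinuousLinearMap.coe_injective (by simpa using h6)
  · rintro ⟨h3, h4⟩
    refine ⟨?_, fun i => ?_⟩
    · rw [h1, h3]
      simp
    · rw [h2, h4]
      simp

theorem regTime {q : RTup n l} {s : ℝ}
    (h : ∀ v, inOm q v → xC v ∉ SingF (f0 (tC (addT q s)))) : RegTime (OO q) (ff q) s := by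
  intro x hx h0
  refine ⟨_, strict_ff q s x, fun h1 => h x hx ?_⟩
  rw [sing_iff]
  exact ⟨h0, h1⟩

end Pool.Agent.QC.Ev
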