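import Pool.Agent.QC.Ev.Basic

/-!
# MP_7c50a9_lc: change of frame at real points
-/

namespace Pool.Agent.QC.Ev

open MvPolynomial Filter Topology Set

variable {n l : ℕ}

/-- Quadratic polynomials at a translated point. -/
theorem qvR_sub {N : ℕ} (p : QP ℝ N) (k : Fin N) (y : Fin N → ℝ) (L : ℝ) :
    qvR p (y - L • Pi.single k 1) = qvR p y - L * (∑ j, p.1 k j * y j) - L * (∑ i, p.1 i k * y i) +
      L ^ 2 * p.1 k k - L * p.2.1 k := by
  have h1 : ∀ i, (y - L • (Pi.single k 1 : Fin N → ℝ)) i = y i - (if i = k then L else 0) := by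
    intro i
    by_cases hi : i = k
    · subst hi
      simp
    · simp [hi]
  simp only [qvR, h1]
  have h2 : ∀ i j, p.1 i j * (y i - if i = k then L else 0) * (y j - if j = k then L else 0) =
      p.1 i j * y i * y j - (if i = k then p.1 i j * L * y j else 0) -
        (if j = k then p.1 i j * L * y i else 0) +
        (if i = k then (if j = k then p.1 i j * L * L else 0) else 0) := by
    intro i j
    by_cases hi : i = k
    · by_cases hj : j = k
      · simp only [hi, hj, if_true]; ring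
      · simp only [hi, hj, if_true, if_false]; ring
    · by_cases hj : j = k
      · simp only [hi, hj, if_true, if_false]; ring
      · simp only [hi, hj, if_false]; ring
  have h3 : ∀ i, p.2.1 i * (y i - if i = k then L else 0) =
      p.2.1 i * y i - (if i = k then p.2.1 i * L else 0) := by
    intro i
    by_cases hi : i = k
    · simp only [hi, if_true]; ring
    · simp only [hi, if_false]; ring
  simp only [h2, h3, Finset.sum_add_distrib, Finset.sum_sub_distrib]
  have e1 : (∑ i, ∑ j, if i = k then p.1 i j * L * y j else 0) = L * ∑ j, p.1 k j * y j := by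
    rw [Finset.sum_eq_single k]
    · rw [Finset.mul_sum]
      refine Finset.sum_congr rfl fun j _ => ?_
      rw [if_pos rfl]; ring
    · intro i _ hi
      simp [hi]
    · simp
  have e2 : (∑ i, ∑ j, if j = k then p.1 i j * L * y i else 0) = L * ∑ i, p.1 i k * y i := by
    rw [Finset.mul_sum]
    refine Finset.sum_congr rfl fun i _ => ?_
    rw [Finset.sum_ite_eq' Finset.univ k]
    simp; ring
  have e3 : (∑ i, ∑ j, if i = k then (if j = k then p.1 i j * L * L else 0) else 0) =
      L ^ 2 * p.1 k k := by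
    rw [Finset.sum_eq_single k]
    · rw [Finset.sum_eq_single k]
      · simp; ring
      · intro j _ hj
        simp [hj]
      · simp
    · intro i _ hi
      simp [hi]
    · simp
  have e4 : (∑ i, if i = k then p.2.1 i * L else 0) = L * p.2.1 k := by
    rw [Finset.sum_ite_eq' Finset.univ k]
    simp; ring
  rw [e1, e2, e3, e4]
  ring

/-- The vector of the frame. -/
def dv (c : Fin n → ℝ) : Fin (n + 1) → ℝ := Fin.snoc c 0

theorem dv_dot (c : Fin n → ℝ) (y : Fin (n + 1) → ℝ) :
    ∑ i, dv c i * y i = ∑ i : Fin n, c i * y i.castSucc := by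
  rw [Fin.sum_univ_castSucc]
  simp [dv]

theorem qvR_shQ (c : Fin n → ℝ) (p : QP ℝ (n + 1)) (y : Fin (n + 1) → ℝ) :
    qvR (shQ c p) y = qvR p (y - (∑ i : Fin n, c i * y i.castSucc) • Pi.single (Fin.last n) 1) := by
  rw [qvR_sub, ← dv_dot]
  set L := ∑ i, dv c i * y i with hL
  set k := Fin.last n with hk
  have h1 : qvR (shQ c p) y = (∑ i, ∑ j, (p.1 i j - dv c i * p.1 k j - p.1 i k * dv c j +
      dv c i * dv c j * p.1 k k) * y i * y j) + (∑ i, (p.2.1 i - dv c i * p.2.1 k) * y i) +
      p.2.2 := rfl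
  rw [h1, qvR]
  have h2 : ∀ i j, (p.1 i j - dv c i * p.1 k j - p.1 i k * dv c j +
      dv c i * dv c j * p.1 k k) * y i * y j = p.1 i j * y i * y j -
      (dv c i * y i) * (p.1 k j * y j) - (p.1 i k * y i) * (dv c j * y j) +
      (dv c i * y i) * (dv c j * y j) * p.1 k k := by
    intro i j
    ring
  have h3 : ∀ i, (p.2.1 i - dv c i * p.2.1 k) * y i = p.2.1 i * y i - (dv c i * y i) * p.2.1 k := by
    intro i
    ring
  simp only [h2, h3, Finset.sum_add_distrib, Finset.sum_sub_distrib, ← Finset.mul_sum,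
    ← Finset.sum_mul, ← hL]
  ring

theorem shX_last (c : Fin n → ℝ) (x : Fin (n + 1) → ℝ) :
    shX c x (Fin.last n) = x (Fin.last n) + ∑ i : Fin n, c i * x i.castSucc := by
  simp [shX]

theorem shX_castSucc (c : Fin n → ℝ) (x : Fin (n + 1) → ℝ) (i : Fin n) :
    shX c x i.castSucc = x i.castSucc := by
  simp [shX]

theorem shX_sub (c : Fin n → ℝ) (x : Fin (n + 1) → ℝ) :
    shX c x - (∑ i : Fin n, c i * shX c x i.castSucc) • (Pi.single (Fin.last n) 1 :
      Fin (n + 1) → ℝ) = x := by
  funext j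
  refine Fin.lastCases ?_ (fun i => ?_) j
  · simp [shX_last, shX_castSucc]
  · have h : (Pi.single (Fin.last n) 1 : Fin (n + 1) → ℝ) i.castSucc = 0 :=
      Pi.single_eq_of_ne (Fin.castSucc_lt_last i).ne 1
    simp [shX_castSucc, h]

theorem qvR_shX (c : Fin n → ℝ) (p : QP ℝ (n + 1)) (x : Fin (n + 1) → ℝ) :
    qvR (shQ c p) (shX c x) = qvR p x := by
  rw [qvR_shQ, shX_sub]

theorem addT_shT (c : Fin n → ℝ) (q : RTup n l) (t : ℝ) :
    addT (shT c q) t = shT c (addT q t) := by
  funext m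
  by_cases hm : m = 0
  · subst hm
    simp [addT, shT, shQ]
  · simp [addT, shT, hm]

theorem fR_shX (c : Fin n → ℝ) (q : RTup n l) (x : Fin (n + 1) → ℝ) :
    fR 0 0 (shT c q) (shX c x) = fR 0 0 q x := by
  simp only [fR, zero_mul, sub_zero]
  congr 1
  exact Finset.prod_congr rfl fun m _ => qvR_shX c (q m) x

theorem inOm_shX (c : Fin n → ℝ) (q : RTup n l) (x : Fin (n + 1) → ℝ) :
    inOm (shT c q) (shX c x) ↔ inOm q x :=
  forall_congr' fun m => by rw [show shT c q m.succ = shQ c (q m.succ) from rfl, qvR_shX]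

/-- The inverse of `shX c`. -/
theorem shX_neg (c : Fin n → ℝ) (x : Fin (n + 1) → ℝ) : shX (-c) (shX c x) = x := by
  funext j
  refine Fin.lastCases ?_ (fun i => ?_) j
  · simp [shX_last, shX_castSucc]
  · simp [shX_castSucc]

theorem shX_neg' (c : Fin n → ℝ) (x : Fin (n + 1) → ℝ) : shX c (shX (-c) x) = x := by
  have := shX_neg (-c) x
  rwa [neg_neg] at this

theorem continuous_shX (c : Fin n → ℝ) : Continuous (shX c) := by
  refine continuous_pi fun j => ?_
  refine Fin.lastCases ?_ (fun i => ?_) j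
  · simp only [shX_last]
    fun_prop
  · simp only [shX_castSucc]
    fun_prop

/-- `shX c` as a homeomorphism. -/
def shHomeo (c : Fin n → ℝ) : (Fin (n + 1) → ℝ) ≃ₜ (Fin (n + 1) → ℝ) where
  toFun := shX c
  invFun := shX (-c)
  left_inv := shX_neg c
  right_inv := shX_neg' c
  continuous_toFun := continuous_shX c
  continuous_invFun := continuous_shX (-c)

theorem shHomeo_apply (c : Fin n → ℝ) (x : Fin (n + 1) → ℝ) : shHomeo c x = shX c x := rfl

theorem Wset_shT (q : RTup n l) (c : Fin n → ℝ) (t : ℝ) :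
    Wset (shT c q) t = shX c '' Wset q t := by
  ext y
  constructor
  · intro hy
    rw [mem_Wset, addT_shT] at hy
    refine ⟨shX (-c) y, ?_, shX_neg' c y⟩
    rw [mem_Wset, ← inOm_shX c, ← fR_shX c, shX_neg']
    exact hy
  · rintro ⟨x, hx, rfl⟩
    rw [mem_Wset] at hx
    rw [mem_Wset, addT_shT, inOm_shX, fR_shX]
    exact hx

theorem Cmp_image {X Y : Type*} [TopologicalSpace X] [TopologicalSpace Y] (e : X ≃ₜ Y)
    (W : Set X) : Cmp (e '' W) = (fun U => e '' U) '' Cmp W := by
  have h : ∀ x ∈ W, e '' connectedComponentIn W x = connectedComponentIn (e '' W) (e x) :=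
    fun x hx => e.image_connectedComponentIn hx
  ext U
  constructor
  · rintro ⟨_, ⟨x, hx, rfl⟩, rfl⟩
    exact ⟨_, ⟨x, hx, rfl⟩, h x hx⟩
  · rintro ⟨_, ⟨x, hx, rfl⟩, rfl⟩
    exact ⟨e x, ⟨x, hx, rfl⟩, h x hx⟩

theorem Cmp_shX (W : Set (Fin (n + 1) → ℝ)) (c : Fin n → ℝ) :
    Cmp (shX c '' W) = (fun U => shX c '' U) '' Cmp W := Cmp_image (shHomeo c) W

theorem CompLev_shT {q : RTup n l} (h : CompLev q) (c : Fin n → ℝ) : CompLev (shT c q) := by
  intro t ht
  have h1 := (h t ht).image (continuous_shX c)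
  convert h1 using 1
  ext y
  constructor
  · rintro ⟨h2, h3⟩
    refine ⟨shX (-c) y, ⟨?_, ?_⟩, shX_neg' c y⟩
    · rw [← inOm_shX c, shX_neg']
      exact h2
    · rw [← fR_shX c, shX_neg', ← addT_shT]
      exact h3
  · rintro ⟨x, ⟨h2, h3⟩, rfl⟩
    exact ⟨(inOm_shX c q x).mpr h2, by rw [addT_shT, fR_shX]; exact h3⟩

end Pool.Agent.QC.Ev
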