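import Pool.Agent.QC.Ev.Morse

/-!
# MP_7c50a9_lc, 4.1 and 5.1: an event of index one
-/

namespace Pool.Agent.QC.Ev

open MvPolynomial Filter Topology Set S4 Matrix

variable {n l : ℕ}

/-- Negative definiteness is an open condition. -/
theorem eventually_neg {X : Type*} [TopologicalSpace X] {m : ℕ} {x₀ : X}
    {M : X → Fin m → Fin m → ℝ} (hM : ∀ i j, ContinuousAt (fun x => M x i j) x₀)
    (hneg : ∀ b : Fin m → ℝ, b ≠ 0 → ∑ i, ∑ j, b i * b j * M x₀ i j < 0) :
    ∀ᶠ x in 𝓝 x₀, ∀ b : Fin m → ℝ, b ≠ 0 → ∑ i, ∑ j, b i * b j * M x i j < 0 := by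
  have h1 : ∀ᶠ x in 𝓝 x₀, ∀ b ∈ Metric.sphere (0 : Fin m → ℝ) 1,
      ∑ i, ∑ j, b i * b j * M x i j < 0 := by
    refine (isCompact_sphere (0 : Fin m → ℝ) 1).eventually_forall_of_forall_eventually
      fun b hb => ?_
    have hb0 : b ≠ 0 := by
      rintro rfl
      simp at hb
    have hc : ContinuousAt (fun z : X × (Fin m → ℝ) => ∑ i, ∑ j, z.2 i * z.2 j * M z.1 i j)
        (x₀, b) := by
      refine tendsto_finsetSum _ fun i _ => tendsto_finsetSum _ fun j _ => ?_
      have e1 : ContinuousAt (fun z : X × (Fin m → ℝ) => z.2 i) (x₀, b) := by fun_prop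
      have e2 : ContinuousAt (fun z : X × (Fin m → ℝ) => z.2 j) (x₀, b) := by fun_prop
      have e3 : ContinuousAt (fun z : X × (Fin m → ℝ) => M z.1 i j) (x₀, b) :=
        ContinuousAt.comp (f := Prod.fst) (x := (x₀, b)) (hM i j) continuousAt_fst
      exact (e1.mul e2).mul e3
    exact hc.eventually_lt continuousAt_const (hneg b hb0)
  filter_upwards [h1] with x hx b hb
  have hn : 0 < ‖b‖ := norm_pos_iff.mpr hb
  have h2 := hx (‖b‖⁻¹ • b) (by simp [norm_smul, hb])
  have h3 : ∑ i, ∑ j, b i * b j * M x i j =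
      ‖b‖ ^ 2 * ∑ i, ∑ j, (‖b‖⁻¹ • b) i * (‖b‖⁻¹ • b) j * M x i j := by
    rw [Finset.mul_sum]
    refine Finset.sum_congr rfl fun i _ => ?_
    rw [Finset.mul_sum]
    refine Finset.sum_congr rfl fun j _ => ?_
    simp only [Pi.smul_apply, smul_eq_mul]
    field_simp
  rw [h3]
  exact mul_neg_of_pos_of_neg (by positivity) h2

/-- The product of the positive factors as a polynomial. -/
noncomputable def piP (q : RTup n l) : MvPolynomial (Fin (n + 1)) ℝ :=
  ∏ m : Fin l, Red.qpolR (q m.succ)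

theorem f0R_addT (q : RTup n l) (t : ℝ) :
    Red.f0R (addT q t) = Red.f0R q + C t * piP q := by
  rw [Red.f0R, Red.f0R, Fin.prod_univ_succ, Fin.prod_univ_succ]
  simp only [addT_succ]
  have h : Red.qpolR (addT q t 0) = Red.qpolR (q 0) + C t := by
    simp [Red.qpolR, addT]
    ring
  rw [h, ← piP]
  ring

theorem AR_addT (q : RTup n l) (t : ℝ) (x : Fin (n + 1) → ℝ) (i j : Fin (n + 1)) :
    AR (addT q t) x i j = eval x (pderiv i (pderiv j (Red.f0R q))) +
      t * eval x (pderiv i (pderiv j (piP q))) := by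
  rw [AR, hess_real, Complex.ofReal_re, f0R_addT, map_add, map_add, map_add]
  congr 1
  rw [← smul_eq_C_mul, Derivation.map_smul, Derivation.map_smul, smul_eval]

theorem continuous_AR (q : RTup n l) (i j : Fin (n + 1)) :
    Continuous fun p : ℝ × (Fin (n + 1) → ℝ) => AR (addT q p.1) p.2 i j := by
  simp only [AR_addT]
  have h1 : Continuous fun p : ℝ × (Fin (n + 1) → ℝ) =>
      eval p.2 (pderiv i (pderiv j (Red.f0R q))) :=
    (Red.contDiff_eval (pderiv i (pderiv j (Red.f0R q))) (k := 0)).continuous.comp continuous_snd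
  have h2 : Continuous fun p : ℝ × (Fin (n + 1) → ℝ) =>
      eval p.2 (pderiv i (pderiv j (piP q))) :=
    (Red.contDiff_eval (pderiv i (pderiv j (piP q))) (k := 0)).continuous.comp continuous_snd
  exact h1.add (continuous_fst.mul h2)

theorem hess'_AR (q : RTup n l) (w : Fin (n + 1) → ℝ) (i j : Fin n) :
    (hess' (f0 (tC q)) (xC w) i j).re = AR q w i.castSucc j.castSucc := rfl

theorem sum_eq_dot {m : ℕ} (A : Matrix (Fin m) (Fin m) ℝ) (x : Fin m → ℝ) :
    x ⬝ᵥ A.mulVec x = ∑ i, ∑ j, x i * x j * A i j := by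
  simp only [dotProduct, mulVec, Finset.mul_sum]
  refine Finset.sum_congr rfl fun i _ => Finset.sum_congr rfl fun j _ => ?_
  ring

theorem sum_snoc_zero (A : Matrix (Fin (n + 1)) (Fin (n + 1)) ℝ) (b : Fin n → ℝ) :
    (Fin.snoc b 0 : Fin (n + 1) → ℝ) ⬝ᵥ A.mulVec (Fin.snoc b 0 : Fin (n + 1) → ℝ) =
      ∑ i, ∑ j, b i * b j * A i.castSucc j.castSucc := by
  rw [sum_eq_dot, Fin.sum_univ_castSucc]
  simp [Fin.sum_univ_castSucc]

theorem snoc_ne_zero {b : Fin n → ℝ} (hb : b ≠ 0) : (Fin.snoc b 0 : Fin (n + 1) → ℝ) ≠ 0 := by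
  intro h
  apply hb
  funext i
  have := congrFun h i.castSucc
  simpa using this

theorem critF_zero {q : RTup n l} {w : Fin (n + 1) → ℝ} (h : xC w ∈ CritF (f0 (tC q))) :
    fR 0 0 q w = 0 := by
  have h1 : eval (xC w) (f0 (tC q)) = ((fR 0 0 q w : ℝ) : ℂ) := by
    have := Red.eval_f0 q w
    rw [fR_zero, Red.eval_f0R]
    exact this
  have h2 := h.1
  rw [h1] at h2
  exact_mod_cast h2

section Event

variable {q : RTup n l} {tv t' : ℝ} {v : Fin (n + 1) → ℝ}

/-- The slice Hessian is negative definite near an event of index one in case A. -/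
theorem eventually_hess' (H : EvHyp q tv t' v) (h1 : OnePos (HR (addT q tv) v))
    (hA : 0 < ((HR (addT q tv) v)⁻¹ : Matrix _ _ ℝ) (Fin.last n) (Fin.last n)) :
    ∀ᶠ p : ℝ × (Fin (n + 1) → ℝ) in 𝓝 (tv, v), ∀ b : Fin n → ℝ, b ≠ 0 →
      ∑ i, ∑ j, b i * b j * (hess' (f0 (tC (addT q p.1))) (xC p.2) i j).re < 0 := by
  have hom : inOm (addT q tv) v := (inOm_addT q tv v).mpr H.om
  have hπ := piR_pos hom
  have key := eventually_neg (x₀ := (tv, v)) (M := fun (p : ℝ × (Fin (n + 1) → ℝ)) (i j : Fin n) =>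
    AR (addT q p.1) p.2 i.castSucc j.castSucc) (fun i j => (continuous_AR q _ _).continuousAt)
    (fun b hb => by
      rw [← sum_snoc_zero]
      have h2 := slice_neg (HR_isSymm (addT q tv) v) h1 hA (snoc_ne_zero hb) (by simp)
      rw [HR_eq, Matrix.smul_mulVec, dotProduct_smul, smul_eq_mul] at h2
      by_contra hcon
      push Not at hcon
      have := mul_nonneg (inv_pos.mpr hπ).le hcon
      linarith)
  filter_upwards [key] with p hp b hb
  simp only [hess'_AR]
  exact hp b hb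

theorem morse_one (H : EvHyp q tv t' v) (h1 : OnePos (HR (addT q tv) v))
    (hA : 0 < ((HR (addT q tv) v)⁻¹ : Matrix _ _ ℝ) (Fin.last n) (Fin.last n)) :
    (∀ x ∈ Wset q t', ∃ y ∈ Wset q tv, y ∈ connectedComponentIn (Wset q t') x) ∧
    ∃ r > 0, ∃ κ > 0, ∀ t, tv - κ < t → t < tv → ∀ w1 w2, CritNear q t v r w1 →
      CritNear q t v r w2 → w1 (Fin.last n) < v (Fin.last n) → v (Fin.last n) < w2 (Fin.last n) →
      w1 ∈ Wset q tv ∧ w2 ∈ Wset q tv ∧ v ∈ Wset q t' ∧
      w1 ∈ connectedComponentIn (Wset q t') v ∧ w2 ∈ connectedComponentIn (Wset q t') v ∧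
      (∀ b : Fin n → ℝ, b ≠ 0 →
        ∑ i, ∑ j, b i * b j * (hess' (f0 (tC (addT q t))) (xC w1) i j).re < 0) ∧
      (∀ b : Fin n → ℝ, b ≠ 0 →
        ∑ i, ∑ j, b i * b j * (hess' (f0 (tC (addT q t))) (xC w2) i j).re < 0) ∧
      ∀ y ∈ Wset q tv, ∀ y' ∈ Wset q tv,
        connectedComponentIn (Wset q t') y = connectedComponentIn (Wset q t') y' →
        connectedComponentIn (Wset q tv) y = connectedComponentIn (Wset q tv) y' ∨
        (connectedComponentIn (Wset q tv) y = connectedComponentIn (Wset q tv) w1 ∧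
          connectedComponentIn (Wset q tv) y' = connectedComponentIn (Wset q tv) w2) ∨
        (connectedComponentIn (Wset q tv) y = connectedComponentIn (Wset q tv) w2 ∧
          connectedComponentIn (Wset q tv) y' = connectedComponentIn (Wset q tv) w1) := by
  obtain ⟨e, he, hnd⟩ := nonDeg_slice H h1 hA
  have hsub := Wset_mono (q := q) H.lt.le
  obtain ⟨N, hN, hvN, hNO, -, C, hC, hvC, U₁, hU₁, U₂, hU₂, hN₁, hN₂, hU₁C, hU₂C, honly,
    hrest⟩ := (funFam H.comp H.lt.le H.le).index_one ⟨le_rfl, H.lt⟩ H.reg H.om H.regv hnd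
      (φ := ContinuousLinearMap.proj (R := ℝ) (φ := fun _ : Fin (n + 1) => ℝ) (Fin.last n))
      (e := e) he (fun x => rfl) ((isOpen_inOm q).mem_nhds H.om)
  simp only [← Wset_eq] at hC hU₁ hU₂ hN₁ hN₂ honly hrest
  have hCv := comps_eq hC hvC
  have hvW : v ∈ Wset q t' := comps_subset hC hvC
  refine ⟨fun x hx => ?_, ?_⟩
  · by_cases hne : connectedComponentIn (Wset q t') x = C
    · obtain ⟨y, hy⟩ := comps_nonempty hU₁
      exact ⟨y, comps_subset hU₁ hy, by rw [hne]; exact hU₁C hy⟩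
    · obtain ⟨U, ⟨hU, hUC⟩, -⟩ := hrest _ (mem_comps hx) hne
      obtain ⟨y, hy⟩ := comps_nonempty hU
      exact ⟨y, comps_subset hU hy, hUC hy⟩
  · -- the neighbourhood
    have hev := eventually_hess' H h1 hA
    rw [nhds_prod_eq] at hev
    obtain ⟨P1, hP1, P2, hP2, hP⟩ := eventually_prod_iff.mp hev
    obtain ⟨κ, hκ, hκP⟩ := Metric.eventually_nhds_iff.mp hP1
    obtain ⟨r, hr, hrP⟩ := Metric.eventually_nhds_iff.mp (hP2.and (hN.mem_nhds hvN))
    refine ⟨r, hr, κ, hκ, fun t ht1 ht2 w1 w2 hw1 hw2 hl1 hl2 => ?_⟩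
    have hmem : ∀ w, CritNear q t v r w → w ∈ Wset q tv ∧ w ∈ N ∧
        (∀ b : Fin n → ℝ, b ≠ 0 →
          ∑ i, ∑ j, b i * b j * (hess' (f0 (tC (addT q t))) (xC w) i j).re < 0) := by
      intro w hw
      obtain ⟨hw3, hw4⟩ := hrP hw.2
      have hom : inOm q w := hNO hw4
      refine ⟨?_, hw4, hP (hκP ?_) hw3⟩
      · rw [mem_Wset]
        refine ⟨hom, ?_⟩
        have h0 : ff q (t, w) = 0 := critF_zero hw.1
        have := ff_mono ht2 hom
        rw [h0] at this
        exact this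
      · rw [Real.dist_eq, abs_sub_comm, abs_of_pos (by linarith)]
        linarith
    obtain ⟨hw1W, hw1N, hw1H⟩ := hmem w1 hw1
    obtain ⟨hw2W, hw2N, hw2H⟩ := hmem w2 hw2
    have hw1U : w1 ∈ U₂ := hN₂ w1 ⟨hw1W, hw1N⟩ (by
      show (w1 - v) (Fin.last n) < 0
      rw [Pi.sub_apply]
      linarith)
    have hw2U : w2 ∈ U₁ := hN₁ w2 ⟨hw2W, hw2N⟩ (by
      show 0 < (w2 - v) (Fin.last n)
      rw [Pi.sub_apply]
      linarith)
    have e1 := comps_eq hU₂ hw1U
    have e2 := comps_eq hU₁ hw2U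
    refine ⟨hw1W, hw2W, hvW, hCv ▸ hU₂C hw1U, hCv ▸ hU₁C hw2U, hw1H, hw2H, ?_⟩
    intro y hy y' hy' heq
    by_cases hne : connectedComponentIn (Wset q t') y = C
    · have hyC : connectedComponentIn (Wset q tv) y ⊆ C :=
        subset_of_mem hsub (mem_comps hy) hC (mem_connectedComponentIn hy)
          (hne ▸ mem_connectedComponentIn (hsub hy))
      have hyC' : connectedComponentIn (Wset q tv) y' ⊆ C :=
        subset_of_mem hsub (mem_comps hy') hC (mem_connectedComponentIn hy')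
          (hne ▸ heq ▸ mem_connectedComponentIn (hsub hy'))
      rcases honly _ (mem_comps hy) hyC with h2 | h2
      · rcases honly _ (mem_comps hy') hyC' with h3 | h3
        · exact Or.inl (h2.trans h3.symm)
        · exact Or.inr (Or.inr ⟨h2.trans e2, h3.trans e1⟩)
      · rcases honly _ (mem_comps hy') hyC' with h3 | h3
        · exact Or.inr (Or.inl ⟨h2.trans e1, h3.trans e2⟩)
        · exact Or.inl (h2.trans h3.symm)
    · exact Or.inl (same_below hsub (hrest _ (mem_comps (hsub hy)) hne) (mem_comps (hsub hy)) hy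
        hy' (mem_connectedComponentIn (hsub hy)) (heq ▸ mem_connectedComponentIn (hsub hy')))

end Event

end Pool.Agent.QC.Ev
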