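import Pool.Agent.QC.Tame.Iface
import Pool.Agent.QC.Ev.Frame
import Pool.Agent.QC.Ev.MorseOne
import Pool.Agent.QC.S5.Pair

/-!
# MP_7c50a9_lc, 4.1 and 5.1: Morse theory for components, geometry of an event (`eta = 0`)

The tuple `q` is in an arbitrary real frame.
-/

namespace Pool.Agent.QC

open MvPolynomial Filter Topology Set

variable {n l : ℕ}

theorem card_Cmp {m : ℕ} {W : Set (Fin m → ℝ)} (hW : IsOpen W) :
    Nat.card (ConnectedComponents W) = (Cmp W).ncard := Ev.card_Cmp hW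

theorem compLev {q : RTup n l} (h : IsCompact {x | 0 ≤ qvR (q 0) x}) : CompLev q := Ev.compLev h

theorem CompLev.shT {q : RTup n l} (h : CompLev q) (c : Fin n → ℝ) : CompLev (shT c q) := Ev.CompLev_shT h c

theorem Wset_shT (q : RTup n l) (c : Fin n → ℝ) (t : ℝ) :
    Wset (shT c q) t = shX c '' Wset q t := Ev.Wset_shT q c t

theorem Cmp_shX (W : Set (Fin (n + 1) → ℝ)) (c : Fin n → ℝ) :
    Cmp (shX c '' W) = (fun U => shX c '' U) '' Cmp W := Ev.Cmp_shX W c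

theorem isOpen_Wset (q : RTup n l) (t : ℝ) : IsOpen (Wset q t) := Ev.isOpen_Wset q t

/-- Finitely many components at a regular level (no singular real point of the level `t`
in `Omega`). -/
theorem morse_finite {q : RTup n l} (hc : CompLev q) {t : ℝ} (ht : t ≤ 0)
    (hreg : ∀ v, inOm q v → xC v ∉ SingF (f0 (tC (addT q t)))) : (Cmp (Wset q t)).Finite := Ev.morse_finite hc ht hreg

theorem morse_reg {q : RTup n l} (hc : CompLev q) {t t' : ℝ} (ht : t < t') (ht' : t' ≤ 0)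
    (hreg : ∀ s ∈ Ico t t', ∀ v, inOm q v → xC v ∉ SingF (f0 (tC (addT q s)))) :
    SameCmp q t t' := Ev.morse_reg hc ht ht' hreg

theorem morse_other {q : RTup n l} {tv t' : ℝ} {v : Fin (n + 1) → ℝ} (H : EvHyp q tv t' v)
    (h0 : ¬ NegDef (HR (addT q tv) v)) (h1 : ¬ OnePos (HR (addT q tv) v)) :
    SameCmp q tv t' := Ev.morse_other H h0 h1

theorem morse_new {q : RTup n l} {tv t' : ℝ} {v : Fin (n + 1) → ℝ} (H : EvHyp q tv t' v)
    (h0 : NegDef (HR (addT q tv) v)) :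
    v ∈ Wset q t' ∧ Disjoint (connectedComponentIn (Wset q t') v) (Wset q tv) ∧
    (∀ x ∈ Wset q t', x ∉ connectedComponentIn (Wset q t') v →
      ∃ y ∈ Wset q tv, y ∈ connectedComponentIn (Wset q t') x) ∧
    ∀ y ∈ Wset q tv, ∀ y' ∈ Wset q tv,
      connectedComponentIn (Wset q t') y = connectedComponentIn (Wset q t') y' →
      connectedComponentIn (Wset q tv) y = connectedComponentIn (Wset q tv) y' := Ev.morse_new H h0

theorem morse_one {q : RTup n l} {tv t' : ℝ} {v : Fin (n + 1) → ℝ} (H : EvHyp q tv t' v)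
    (h1 : OnePos (HR (addT q tv) v))
    (hA : 0 < ((HR (addT q tv) v)⁻¹ : Matrix _ _ ℝ) (Fin.last n) (Fin.last n)) :
    (∀ x ∈ Wset q t', ∃ y ∈ Wset q tv, y ∈ connectedComponentIn (Wset q t') x) ∧
    ∃ r > 0, ∃ κ > 0, ∀ t, tv - κ < t → t < tv → ∀ w1 w2, CritNear q t v r w1 →
      CritNear q t v r w2 → w1 (Fin.last n) < v (Fin.last n) → v (Fin.last n) < w2 (Fin.last n) →
      w1 ∈ Wset q tv ∧ w2 ∈ Wset q tv ∧ v ∈ Wset q t' ∧
      w1 ∈ connectedComponentIn (Wset q t') v ∧ w2 ∈ connectedComponentIn (Wset q t') v ∧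
      (∀ b : Fin n → ℝ, b ≠ 0 →
        ∑ i, ∑ j, b i * b j * (hess' (f0 (tC (addT q t))) (xC w1) i j).re < 0) ∧
      (∀ b : Fin n → ℝ, b ≠ 0 →
        ∑ i, ∑ j, b i * b j * (hess' (f0 (tC (addT q t))) (xC w2) i j).re < 0) ∧
      ∀ y ∈ Wset q tv, ∀ y' ∈ Wset q tv,
        connectedComponentIn (Wset q t') y = connectedComponentIn (Wset q t') y' →
        connectedComponentIn (Wset q tv) y = connectedComponentIn (Wset q tv) y' ∨
        (connectedComponentIn (Wset q tv) y = connectedComponentIn (Wset q tv) w1 ∧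
          connectedComponentIn (Wset q tv) y' = connectedComponentIn (Wset q tv) w2) ∨
        (connectedComponentIn (Wset q tv) y = connectedComponentIn (Wset q tv) w2 ∧
          connectedComponentIn (Wset q tv) y' = connectedComponentIn (Wset q tv) w1) := Ev.morse_one H h1 hA

/-! ## Geometry of an event in the plane of values (5.1) -/

/-- Case A: `(H⁻¹)_nn > 0`. -/
theorem pairA {q : RTup n l} (h1 : T1 (tC q)) {tv : ℝ} {v : Fin (n + 1) → ℝ}
    (hv : xC v ∈ SingF (f0 (tC (addT q tv)))) (h3 : N3at (tC (addT q tv)))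
    (hA : 0 < ((HR (addT q tv) v)⁻¹ : Matrix _ _ ℝ) (Fin.last n) (Fin.last n)) :
    ∃ r₁ > 0, ∀ r > 0, ∃ κ > 0, ∀ t : ℂ, t ≠ tv → ‖t - tv‖ < κ → 0 ≤ t.im →
      ∃ w1 w2, PairAt (tC q) t (xC v) r₁ r w1 w2 ∧
        0 < (w1 (Fin.last n) - v (Fin.last n)).im - (w1 (Fin.last n) - v (Fin.last n)).re ∧
        (w2 (Fin.last n) - v (Fin.last n)).im - (w2 (Fin.last n) - v (Fin.last n)).re < 0 ∧
        (t.im = 0 → t.re < tv → ∃ x1 x2 : Fin (n + 1) → ℝ, w1 = xC x1 ∧ w2 = xC x2 ∧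
          x1 (Fin.last n) < v (Fin.last n) ∧ v (Fin.last n) < x2 (Fin.last n)) ∧
        (t.im = 0 → tv < t.re → 0 < (w1 (Fin.last n)).im ∧
          w2 (Fin.last n) = (starRingEnd ℂ) (w1 (Fin.last n))) :=
  pairA' h1 hv h3 hA

/-- Case B (only needed for negative definite `H`): real pair after the event. -/
theorem pairB {q : RTup n l} (h1 : T1 (tC q)) {tv : ℝ} {v : Fin (n + 1) → ℝ}
    (hv : xC v ∈ SingF (f0 (tC (addT q tv)))) (h3 : N3at (tC (addT q tv)))
    (hB : NegDef (HR (addT q tv) v)) :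
    ∃ r₁ > 0, ∀ r > 0, ∃ κ > 0, (∀ t : ℂ, t ≠ tv → ‖t - tv‖ < κ → 0 ≤ t.im →
      ∃ w1 w2, PairAt (tC q) t (xC v) r₁ r w1 w2) ∧
      ∀ t : ℝ, tv < t → t < tv + κ → ∃ x1 x2 : Fin (n + 1) → ℝ,
        PairAt (tC q) t (xC v) r₁ r (xC x1) (xC x2) ∧
          x2 (Fin.last n) < v (Fin.last n) ∧ v (Fin.last n) < x1 (Fin.last n) :=
  pairB' h1 hv h3 hB

end Pool.Agent.QC
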