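import Pool.Agent.QC.Defs

/-!
# MP_7c50a9_lc, 5.1: a nondegenerate singular point is isolated in the critical set of `x_n`
-/

namespace Pool.Agent.QC.Ev

open MvPolynomial Filter Topology Set

/-- Derivative of a complex polynomial function. -/
theorem hasStrictFDerivAt_evalC {m : ℕ} (P : Pol m) (x : Fin m → ℂ) :
    HasStrictFDerivAt (fun x => eval x P)
      (∑ i, (eval x (pderiv i P)) • (ContinuousLinearMap.proj i : (Fin m → ℂ) →L[ℂ] ℂ)) x := by
  induction P using MvPolynomial.induction_on with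
  | C a =>
    have h : HasStrictFDerivAt (fun _ : Fin m → ℂ => a) (0 : (Fin m → ℂ) →L[ℂ] ℂ) x :=
      hasStrictFDerivAt_const a x
    simp only [eval_C]
    refine h.congr_fderiv ?_
    ext1 w
    simp only [sum_apply, smul_apply, pderiv_C, map_zero, zero_apply, smul_eq_mul, zero_mul,
      Finset.sum_const_zero]
  | add P Q hP hQ =>
    simp only [map_add]
    refine (hP.add hQ).congr_fderiv ?_
    ext1 w
    simp only [sum_apply, smul_apply, add_apply, smul_eq_mul, add_mul, Finset.sum_add_distrib]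
  | mul_X P j hP =>
    have hX : HasStrictFDerivAt (fun x : Fin m → ℂ => x j)
        (ContinuousLinearMap.proj j : (Fin m → ℂ) →L[ℂ] ℂ) x :=
      (ContinuousLinearMap.proj (R := ℂ) (φ := fun _ : Fin m => ℂ) j).hasStrictFDerivAt
    have h := hP.mul hX
    have h1 : (fun x : Fin m → ℂ => eval x (P * X j)) = fun x => eval x P * x j := by
      funext y
      simp
    rw [h1]
    refine h.congr_fderiv ?_
    have h3 : ∀ i, eval x (pderiv i (P * X j)) =
        (if i = j then eval x P else 0) + x j * eval x (pderiv i P) := by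
      intro i
      rw [Derivation.leibniz, pderiv_X]
      by_cases hij : i = j
      · subst hij
        simp
      · simp [hij]
    ext1 w
    simp only [sum_apply, smul_apply, add_apply, smul_eq_mul, h3, add_mul,
      Finset.sum_add_distrib, Finset.mul_sum, ContinuousLinearMap.proj_apply, ite_mul, zero_mul,
      Finset.sum_ite_eq', Finset.mem_univ, if_true, mul_assoc]

theorem continuous_evalC {m : ℕ} (P : Pol m) : Continuous fun x : Fin m → ℂ => eval x P :=
  continuous_iff_continuousAt.mpr fun x => (hasStrictFDerivAt_evalC P x).hasFDerivAt.continuousAt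

theorem pderiv_comm' {m : ℕ} (P : Pol m) (i j : Fin m) :
    pderiv i (pderiv j P) = pderiv j (pderiv i P) := by
  induction P using MvPolynomial.induction_on with
  | C a => simp
  | add P Q hP hQ => simp [hP, hQ]
  | mul_X P k hP =>
    simp only [Derivation.leibniz, map_add, smul_eq_mul, hP]
    have : ∀ i j : Fin m, pderiv i (pderiv j (X k : Pol m)) = 0 := by
      intro i j
      rw [pderiv_X]
      by_cases h : j = k
      · subst h
        simp
      · simp [Pi.single_apply, Ne.symm h]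
    rw [this, this]
    ring

/-- First order expansion of a polynomial. -/
theorem eval_expand {m : ℕ} (P : Pol m) (v : Fin m → ℂ) {ε : ℝ} (hε : 0 < ε) :
    ∀ᶠ x in 𝓝 v, ‖eval x P - eval v P - ∑ j, eval v (pderiv j P) * (x j - v j)‖ ≤
      ε * ‖x - v‖ := by
  have h := (hasStrictFDerivAt_evalC P v).hasFDerivAt.isLittleO.def hε
  filter_upwards [h] with x hx
  simpa using hx

/-- Second order expansion at a singular point. -/
theorem eval_expand2 {m : ℕ} (F : Pol m) (v : Fin m → ℂ) (h0 : eval v F = 0)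
    (h1 : ∀ i, eval v (pderiv i F) = 0) {ε : ℝ} (hε : 0 < ε) :
    ∀ᶠ x in 𝓝 v, ‖2 * eval x F - ∑ i, (x i - v i) * eval x (pderiv i F)‖ ≤
      ε * ‖x - v‖ ^ 2 := by
  classical
  -- the derivative
  set D : (Fin m → ℂ) → (Fin m → ℂ) →L[ℂ] ℂ := fun x =>
    ∑ j, (eval x (pderiv j F) - ∑ i, (x i - v i) * eval x (pderiv j (pderiv i F))) •
      (ContinuousLinearMap.proj j : (Fin m → ℂ) →L[ℂ] ℂ) with hD
  have hder : ∀ x, HasFDerivAt
      (fun x : Fin m → ℂ => 2 * eval x F - ∑ i, (x i - v i) * eval x (pderiv i F)) (D x) x := by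
    intro x
    have a1 : HasFDerivAt (fun x : Fin m → ℂ => 2 * eval x F) _ x :=
      (hasStrictFDerivAt_evalC F x).hasFDerivAt.const_mul 2
    have a2 : ∀ i : Fin m, HasFDerivAt (fun x : Fin m → ℂ => (x i - v i) * eval x (pderiv i F))
        ((x i - v i) • (∑ j, (eval x (pderiv j (pderiv i F))) •
          (ContinuousLinearMap.proj j : (Fin m → ℂ) →L[ℂ] ℂ)) +
          eval x (pderiv i F) • (ContinuousLinearMap.proj i : (Fin m → ℂ) →L[ℂ] ℂ)) x := by
      intro i
      have b1 : HasFDerivAt (fun x : Fin m → ℂ => x i - v i)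
          (ContinuousLinearMap.proj i : (Fin m → ℂ) →L[ℂ] ℂ) x :=
        (ContinuousLinearMap.proj (R := ℂ) (φ := fun _ : Fin m => ℂ) i).hasFDerivAt.sub_const _
      exact b1.mul (hasStrictFDerivAt_evalC (pderiv i F) x).hasFDerivAt
    have a3 := a1.sub (HasFDerivAt.fun_sum fun i (_ : i ∈ Finset.univ) => a2 i)
    refine a3.congr_fderiv ?_
    rw [hD]
    ext1 w
    have e1 : ∑ i, (x i - v i) * ∑ j, eval x (pderiv j (pderiv i F)) * w j =
        ∑ j, (∑ i, (x i - v i) * eval x (pderiv j (pderiv i F))) * w j := by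
      simp only [Finset.mul_sum, Finset.sum_mul]
      rw [Finset.sum_comm]
      exact Finset.sum_congr rfl fun _ _ => Finset.sum_congr rfl fun _ _ => by ring
    simp only [sub_apply, add_apply, smul_apply, sum_apply, ContinuousLinearMap.proj_apply,
      smul_eq_mul, Finset.sum_add_distrib, e1, sub_mul (eval x (pderiv _ F)),
      Finset.sum_sub_distrib]
    ring
  have hv0 : 2 * eval v F - ∑ i, (v i - v i) * eval v (pderiv i F) = 0 := by
    simp [h0]
  -- the derivative is small
  have hDsmall : ∀ᶠ x in 𝓝 v, ‖D x‖ ≤ ε * ‖x - v‖ := by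
    have hm : (0 : ℝ) < m + 1 := by positivity
    set δ := ε / ((m + 1) * (m + 2)) with hδ
    have hδp : 0 < δ := by positivity
    have c1 : ∀ᶠ x in 𝓝 v, ∀ j : Fin m, ‖eval x (pderiv j F) - eval v (pderiv j F) -
        ∑ i, eval v (pderiv i (pderiv j F)) * (x i - v i)‖ ≤ δ * ‖x - v‖ :=
      eventually_all.mpr fun j => eval_expand (pderiv j F) v hδp
    have c2 : ∀ᶠ x in 𝓝 v, ∀ j i : Fin m,
        ‖eval x (pderiv j (pderiv i F)) - eval v (pderiv j (pderiv i F))‖ < δ := by
      refine eventually_all.mpr fun j => eventually_all.mpr fun i => ?_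
      have := (continuous_evalC (pderiv j (pderiv i F))).continuousAt (x := v)
      have h2 := Metric.tendsto_nhds.mp this δ hδp
      simpa [dist_eq_norm] using h2
    filter_upwards [c1, c2] with x hx1 hx2
    have hcoef : ∀ j, ‖eval x (pderiv j F) - ∑ i, (x i - v i) * eval x (pderiv j (pderiv i F))‖ ≤
        (m + 1) * δ * ‖x - v‖ := by
      intro j
      have d1 := hx1 j
      rw [h1 j, sub_zero] at d1
      have d2 : eval x (pderiv j F) - ∑ i, (x i - v i) * eval x (pderiv j (pderiv i F)) =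
          (eval x (pderiv j F) - ∑ i, eval v (pderiv i (pderiv j F)) * (x i - v i)) -
          ∑ i, (x i - v i) * (eval x (pderiv j (pderiv i F)) - eval v (pderiv j (pderiv i F))) := by
        have e3 : ∑ i, eval v (pderiv i (pderiv j F)) * (x i - v i) =
            ∑ i, (x i - v i) * eval v (pderiv j (pderiv i F)) := by
          refine Finset.sum_congr rfl fun i _ => ?_
          rw [pderiv_comm', mul_comm]
        have e4 : ∑ i, (x i - v i) * (eval x (pderiv j (pderiv i F)) -
            eval v (pderiv j (pderiv i F))) =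
            ∑ i, (x i - v i) * eval x (pderiv j (pderiv i F)) -
            ∑ i, (x i - v i) * eval v (pderiv j (pderiv i F)) := by
          rw [← Finset.sum_sub_distrib]
          exact Finset.sum_congr rfl fun i _ => mul_sub _ _ _
        rw [e3, e4]
        ring
      rw [d2]
      refine (norm_sub_le _ _).trans ?_
      have d3 : ‖∑ i, (x i - v i) * (eval x (pderiv j (pderiv i F)) -
          eval v (pderiv j (pderiv i F)))‖ ≤ m * (δ * ‖x - v‖) := by
        refine (norm_sum_le _ _).trans ?_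
        have : ∀ i ∈ Finset.univ, ‖(x i - v i) * (eval x (pderiv j (pderiv i F)) -
            eval v (pderiv j (pderiv i F)))‖ ≤ δ * ‖x - v‖ := by
          intro i _
          rw [norm_mul, mul_comm]
          exact mul_le_mul (hx2 j i).le (norm_le_pi_norm (x - v) i) (norm_nonneg _) hδp.le
        refine (Finset.sum_le_sum this).trans ?_
        simp
      linarith
    refine ContinuousLinearMap.opNorm_le_bound _ (by positivity) fun w => ?_
    rw [hD]
    simp only [sum_apply, smul_apply, ContinuousLinearMap.proj_apply, smul_eq_mul]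
    refine (norm_sum_le _ _).trans ?_
    have : ∀ j ∈ Finset.univ, ‖(eval x (pderiv j F) -
        ∑ i, (x i - v i) * eval x (pderiv j (pderiv i F))) * w j‖ ≤
        (m + 1) * δ * ‖x - v‖ * ‖w‖ := by
      intro j _
      rw [norm_mul]
      exact mul_le_mul (hcoef j) (norm_le_pi_norm w j) (norm_nonneg _) (by positivity)
    refine (Finset.sum_le_sum this).trans ?_
    simp only [Finset.sum_const, Finset.card_univ, Fintype.card_fin, nsmul_eq_mul]
    have h3 : (m : ℝ) * ((m + 1) * δ * ‖x - v‖ * ‖w‖) ≤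
        (m + 2) * ((m + 1) * δ * ‖x - v‖ * ‖w‖) :=
      mul_le_mul_of_nonneg_right (by linarith) (by positivity)
    refine h3.trans (le_of_eq ?_)
    rw [hδ]
    field_simp
  -- mean value
  obtain ⟨ρ, hρ, hρD⟩ := Metric.eventually_nhds_iff_ball.mp hDsmall
  filter_upwards [Metric.ball_mem_nhds v hρ] with x hx
  have hseg : ∀ y ∈ segment ℝ v x, ‖y - v‖ ≤ ‖x - v‖ ∧ y ∈ Metric.ball v ρ := by
    rintro y ⟨a, b, ha, hb, hab, rfl⟩
    have e2 : a • v + b • x - v = b • (x - v) := by
      have : a = 1 - b := by linarith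
      rw [this]
      module
    have e3 : ‖a • v + b • x - v‖ ≤ ‖x - v‖ := by
      rw [e2, norm_smul, Real.norm_eq_abs, abs_of_nonneg hb]
      exact mul_le_of_le_one_left (norm_nonneg _) (by linarith)
    refine ⟨e3, ?_⟩
    rw [Metric.mem_ball, dist_eq_norm] at hx ⊢
    exact e3.trans_lt hx
  have hmv := (convex_segment v x).norm_image_sub_le_of_norm_hasFDerivWithin_le
    (f := fun x : Fin m → ℂ => 2 * eval x F - ∑ i, (x i - v i) * eval x (pderiv i F))
    (f' := D) (C := ε * ‖x - v‖) (fun y _ => (hder y).hasFDerivWithinAt) (fun y hy => by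
      refine (hρD y (hseg y hy).2).trans ?_
      exact mul_le_mul_of_nonneg_left (hseg y hy).1 hε.le) (left_mem_segment ℝ v x)
      (right_mem_segment ℝ v x)
  rw [hv0, sub_zero] at hmv
  calc _ ≤ _ := hmv
    _ = ε * ‖x - v‖ ^ 2 := by ring

theorem exists_bound {m : ℕ} {A : Matrix (Fin m) (Fin m) ℂ} (hA : A.det ≠ 0) :
    ∃ c > 0, ∀ u : Fin m → ℂ, ‖u‖ ≤ c * ‖A.mulVec u‖ := by
  have hu : IsUnit A.det := isUnit_iff_ne_zero.mpr hA
  set L : (Fin m → ℂ) →L[ℂ] (Fin m → ℂ) := LinearMap.toContinuousLinearMap (Matrix.mulVecLin A⁻¹)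
    with hL
  refine ⟨‖L‖ + 1, by positivity, fun u => ?_⟩
  have h1 : L (A.mulVec u) = u := by
    show A⁻¹.mulVec (A.mulVec u) = u
    rw [Matrix.mulVec_mulVec, Matrix.nonsing_inv_mul _ hu, Matrix.one_mulVec]
  calc ‖u‖ = ‖L (A.mulVec u)‖ := by rw [h1]
    _ ≤ ‖L‖ * ‖A.mulVec u‖ := L.le_opNorm _
    _ ≤ (‖L‖ + 1) * ‖A.mulVec u‖ := by
      have := norm_nonneg (A.mulVec u)
      nlinarith

/-- A nondegenerate singular point is isolated in the critical set of `x_n`. -/
theorem crit_isolated {n : ℕ} (F : Pol (n + 1)) (v : Fin (n + 1) → ℂ) (hv : v ∈ SingF F)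
    (hH : (hess F v).det ≠ 0) (hH' : (hess' F v).det ≠ 0) :
    ∀ᶠ x in 𝓝 v, x ∈ CritF F → x = v := by
  classical
  obtain ⟨C, hC, hCb⟩ := exists_bound hH
  obtain ⟨C', hC', hCb'⟩ := exists_bound hH'
  set M : ℝ := ∑ i : Fin n, ‖eval v (pderiv (Fin.last n) (pderiv i.castSucc F))‖ with hM
  have hM0 : 0 ≤ M := Finset.sum_nonneg fun _ _ => norm_nonneg _
  set ε : ℝ := 1 / (2 * (1 + C + 2 * C + C' * (1 + 2 * M * C))) with hε
  have hεp : 0 < ε := by positivity
  have hεC : C * ε ≤ 1 / 2 := by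
    rw [hε, mul_one_div, div_le_div_iff₀ (by positivity) (by norm_num)]
    nlinarith [mul_nonneg hC'.le (by positivity : (0 : ℝ) ≤ 1 + 2 * M * C)]
  have hε2 : 2 * C * ε < 1 := by
    rw [hε, mul_one_div, div_lt_one (by positivity)]
    nlinarith [mul_nonneg hC'.le (by positivity : (0 : ℝ) ≤ 1 + 2 * M * C)]
  have hε3 : C' * (ε + M * (2 * C * ε)) < 1 := by
    have : C' * (ε + M * (2 * C * ε)) = (C' * (1 + 2 * M * C)) * ε := by ring
    rw [this, hε, mul_one_div, div_lt_one (by positivity)]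
    nlinarith [mul_nonneg hC'.le (by positivity : (0 : ℝ) ≤ 1 + 2 * M * C)]
  have h1 : ∀ᶠ x in 𝓝 v, ∀ i : Fin (n + 1), ‖eval x (pderiv i F) - eval v (pderiv i F) -
      ∑ j, eval v (pderiv j (pderiv i F)) * (x j - v j)‖ ≤ ε * ‖x - v‖ :=
    eventually_all.mpr fun i => eval_expand (pderiv i F) v hεp
  have h2 := eval_expand2 F v hv.1 hv.2 hεp
  filter_upwards [h1, h2] with x hx1 hx2 hx
  by_contra hne
  have hu : 0 < ‖x - v‖ := norm_pos_iff.mpr (sub_ne_zero.mpr hne)
  set g := eval x (pderiv (Fin.last n) F) with hg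
  -- the last coordinate
  have k1 : ‖(x (Fin.last n) - v (Fin.last n)) * g‖ ≤ ε * ‖x - v‖ ^ 2 := by
    have e1 : 2 * eval x F - ∑ i, (x i - v i) * eval x (pderiv i F) =
        -((x (Fin.last n) - v (Fin.last n)) * g) := by
      rw [hx.1, Fin.sum_univ_castSucc, Finset.sum_eq_zero fun i _ => by rw [hx.2 i, mul_zero]]
      ring
    rw [e1, norm_neg] at hx2
    exact hx2
  -- the full Hessian
  have hmv : ∀ i, (hess F v).mulVec (x - v) i =
      ∑ j, eval v (pderiv j (pderiv i F)) * (x j - v j) := by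
    intro i
    rw [Matrix.mulVec, dotProduct]
    refine Finset.sum_congr rfl fun j _ => ?_
    rw [hess, pderiv_comm']
    rfl
  have k2 : ‖(hess F v).mulVec (x - v)‖ ≤ ‖g‖ + ε * ‖x - v‖ := by
    rw [pi_norm_le_iff_of_nonneg (by positivity)]
    intro i
    rw [hmv]
    have e2 := hx1 i
    rw [hv.2 i, sub_zero] at e2
    have e3 : ‖∑ j, eval v (pderiv j (pderiv i F)) * (x j - v j)‖ ≤
        ‖eval x (pderiv i F)‖ + ‖eval x (pderiv i F) -
          ∑ j, eval v (pderiv j (pderiv i F)) * (x j - v j)‖ := by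
      have := norm_sub_le (eval x (pderiv i F)) (eval x (pderiv i F) -
        ∑ j, eval v (pderiv j (pderiv i F)) * (x j - v j))
      rwa [sub_sub_cancel] at this
    have e4 : ‖eval x (pderiv i F)‖ ≤ ‖g‖ := by
      refine Fin.lastCases ?_ (fun k => ?_) i
      · exact le_rfl
      · rw [hx.2 k, norm_zero]
        exact norm_nonneg _
    linarith
  have k3 : ‖x - v‖ ≤ 2 * C * ‖g‖ := by
    have := hCb (x - v)
    have h3 : C * ‖(hess F v).mulVec (x - v)‖ ≤ C * (‖g‖ + ε * ‖x - v‖) :=
      mul_le_mul_of_nonneg_left k2 hC.le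
    have h4 : C * ε * ‖x - v‖ ≤ 1 / 2 * ‖x - v‖ := mul_le_mul_of_nonneg_right hεC hu.le
    nlinarith
  have k4 : ‖x (Fin.last n) - v (Fin.last n)‖ ≤ 2 * C * ε * ‖x - v‖ := by
    rw [norm_mul] at k1
    have h3 : ‖x (Fin.last n) - v (Fin.last n)‖ * ‖x - v‖ ≤
        ‖x (Fin.last n) - v (Fin.last n)‖ * (2 * C * ‖g‖) :=
      mul_le_mul_of_nonneg_left k3 (norm_nonneg _)
    have h4 : ‖x (Fin.last n) - v (Fin.last n)‖ * ‖x - v‖ ≤ 2 * C * ε * ‖x - v‖ * ‖x - v‖ := by
      nlinarith
    exact le_of_mul_le_mul_right h4 hu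
  -- the other coordinates
  set u' : Fin n → ℂ := fun i => x i.castSucc - v i.castSucc with hu'
  have k5 : ‖(hess' F v).mulVec u'‖ ≤ ε * ‖x - v‖ + M * (2 * C * ε * ‖x - v‖) := by
    rw [pi_norm_le_iff_of_nonneg (by positivity)]
    intro i
    have e2 := hx1 i.castSucc
    rw [hv.2 i.castSucc, hx.2 i, sub_zero, zero_sub, norm_neg, Fin.sum_univ_castSucc] at e2
    have e3 : (hess' F v).mulVec u' i =
        ∑ j : Fin n, eval v (pderiv j.castSucc (pderiv i.castSucc F)) *
          (x j.castSucc - v j.castSucc) := by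
      rw [Matrix.mulVec, dotProduct]
      refine Finset.sum_congr rfl fun j _ => ?_
      rw [hess', pderiv_comm']
    rw [e3]
    set S := ∑ j : Fin n, eval v (pderiv j.castSucc (pderiv i.castSucc F)) *
          (x j.castSucc - v j.castSucc) with hS
    set t := eval v (pderiv (Fin.last n) (pderiv i.castSucc F)) *
      (x (Fin.last n) - v (Fin.last n)) with ht
    have e4 : ‖S‖ ≤ ‖S + t‖ + ‖t‖ := by
      have := norm_sub_le (S + t) t
      rwa [add_sub_cancel_right] at this
    have e5 : ‖t‖ ≤ M * (2 * C * ε * ‖x - v‖) := by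
      rw [ht, norm_mul]
      refine mul_le_mul ?_ k4 (norm_nonneg _) hM0
      exact Finset.single_le_sum (f := fun i : Fin n =>
        ‖eval v (pderiv (Fin.last n) (pderiv i.castSucc F))‖) (fun _ _ => norm_nonneg _)
        (Finset.mem_univ i)
    linarith
  have k6 : ‖u'‖ ≤ C' * (ε + M * (2 * C * ε)) * ‖x - v‖ := by
    refine (hCb' u').trans ?_
    refine (mul_le_mul_of_nonneg_left k5 hC'.le).trans (le_of_eq ?_)
    ring
  have k7 : ‖x - v‖ < ‖x - v‖ := by
    rw [pi_norm_lt_iff hu]
    intro i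
    refine Fin.lastCases ?_ (fun k => ?_) i
    · refine k4.trans_lt ?_
      exact mul_lt_of_lt_one_left hu hε2
    · refine ((norm_le_pi_norm u' k).trans k6).trans_lt ?_
      exact mul_lt_of_lt_one_left hu hε3
  exact lt_irrefl _ k7

end Pool.Agent.QC.Ev
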