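import Pool.Agent.QC.Rec

/-!
# MP_7c50a9_lc, 4.1 and 5.1: definitions (see `Ev/Iface.lean`)
-/

namespace Pool.Agent.QC

open MvPolynomial Filter Topology Set

variable {n l : ℕ}

/-- The connected components of `W`, as sets. -/
def Cmp {X : Type*} [TopologicalSpace X] (W : Set X) : Set (Set X) :=
  {U | ∃ x ∈ W, U = connectedComponentIn W x}

/-- Compactness of the levels. -/
def CompLev (q : RTup n l) : Prop :=
  ∀ t ≤ 0, IsCompact {x | inOm q x ∧ 0 ≤ fR 0 0 (addT q t) x}

/-- Regular or harmless: components of `W_t` and of `W_t'`, `t < t'`, correspond. -/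
def SameCmp (q : RTup n l) (t t' : ℝ) : Prop :=
  (∀ x ∈ Wset q t', ∃ y ∈ Wset q t, y ∈ connectedComponentIn (Wset q t') x) ∧
  ∀ y ∈ Wset q t, ∀ y' ∈ Wset q t,
    connectedComponentIn (Wset q t') y = connectedComponentIn (Wset q t') y' →
    connectedComponentIn (Wset q t) y = connectedComponentIn (Wset q t) y'

/-- The hypotheses on an event: `v` is the only real singular point in `Omega` of the levels in
`[tv, t')`; it is nondegenerate. -/
structure EvHyp (q : RTup n l) (tv t' : ℝ) (v : Fin (n + 1) → ℝ) : Prop where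
  comp : CompLev q
  lt : tv < t'
  le : t' ≤ 0
  om : inOm q v
  sing : xC v ∈ SingF (f0 (tC (addT q tv)))
  det : (hess (f0 (tC (addT q tv))) (xC v)).det ≠ 0
  only : ∀ s ∈ Ico tv t', ∀ x, inOm q x → xC x ∈ SingF (f0 (tC (addT q s))) → s = tv ∧ x = v

/-- Real critical point of `x_n` on the level `t` of `q`, near `v`. -/
def CritNear (q : RTup n l) (t : ℝ) (v : Fin (n + 1) → ℝ) (r : ℝ) (w : Fin (n + 1) → ℝ) : Prop :=
  xC w ∈ CritF (f0 (tC (addT q t))) ∧ dist w v < r

/-- The pair of critical points near `v` at the level `t`: `w1`, `w2` are the only critical points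
with value in the disc of radius `r₁` around `v_n`, nondegenerate, and closer than `r` to `v`. -/
structure PairAt (q : Tup n l) (t : ℂ) (v : Fin (n + 1) → ℂ) (r₁ r : ℝ)
    (w1 w2 : Fin (n + 1) → ℂ) : Prop where
  mem1 : w1 ∈ CritF (f0 (addT q t))
  mem2 : w2 ∈ CritF (f0 (addT q t))
  nd1 : NonDegC (f0 (addT q t)) w1
  nd2 : NonDegC (f0 (addT q t)) w2
  ne : w1 (Fin.last n) ≠ w2 (Fin.last n)
  near1 : dist w1 v < r
  near2 : dist w2 v < r
  only : ∀ x ∈ CritF (f0 (addT q t)), ‖x (Fin.last n) - v (Fin.last n)‖ < r₁ → x = w1 ∨ x = w2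

end Pool.Agent.QC
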