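import Pool.Agent.QC.Rec
import Pool.Agent.QC.S4.Hess

/-!
# MP_7c50a9_lc, 5.1: linear algebra of real symmetric matrices
-/

namespace Pool.Agent.QC

open Matrix S4

variable {n : ℕ}

section Slice

variable {H : Matrix (Fin (n + 1)) (Fin (n + 1)) ℝ}

/-- The vector `H⁻¹ e_n`. -/
noncomputable def bv (H : Matrix (Fin (n + 1)) (Fin (n + 1)) ℝ) : Fin (n + 1) → ℝ :=
  H⁻¹.mulVec (Pi.single (Fin.last n) 1)

theorem bv_last : bv H (Fin.last n) = H⁻¹ (Fin.last n) (Fin.last n) := by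
  simp [bv]

theorem mulVec_bv (hA : 0 < H⁻¹ (Fin.last n) (Fin.last n)) :
    H.mulVec (bv H) = Pi.single (Fin.last n) 1 := by
  have hdet : IsUnit H.det := by
    by_contra h
    rw [Matrix.nonsing_inv_apply_not_isUnit _ h] at hA
    simp at hA
  rw [bv, Matrix.mulVec_mulVec, Matrix.mul_nonsing_inv _ hdet, Matrix.one_mulVec]

theorem dot_mulVec_bv (hA : 0 < H⁻¹ (Fin.last n) (Fin.last n)) (x : Fin (n + 1) → ℝ) :
    x ⬝ᵥ H.mulVec (bv H) = x (Fin.last n) := by
  rw [mulVec_bv hA]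
  simp

theorem dot_mulVec_comm (hs : H.IsSymm) (x y : Fin (n + 1) → ℝ) :
    x ⬝ᵥ H.mulVec y = y ⬝ᵥ H.mulVec x := by
  rw [Matrix.dotProduct_mulVec, ← Matrix.mulVec_transpose, hs.eq, dotProduct_comm]

/-- If `H` has exactly one positive eigenvalue and `(H⁻¹)_nn > 0` then `H` is negative definite on
`x_n = 0`. -/
theorem slice_neg (hs : H.IsSymm) (h1 : OnePos H) (hA : 0 < H⁻¹ (Fin.last n) (Fin.last n))
    {x : Fin (n + 1) → ℝ} (hx : x ≠ 0) (hx0 : x (Fin.last n) = 0) : x ⬝ᵥ H.mulVec x < 0 := by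
  obtain ⟨a, -, hneg⟩ := h1
  by_contra hcon
  push Not at hcon
  set b := bv H with hb
  have hbb : b ⬝ᵥ H.mulVec b = H⁻¹ (Fin.last n) (Fin.last n) := by
    rw [dot_mulVec_bv hA, hb, bv_last]
  have hxb : x ⬝ᵥ H.mulVec b = 0 := by rw [dot_mulVec_bv hA, hx0]
  have hbx : b ⬝ᵥ H.mulVec x = 0 := by rw [dot_mulVec_comm hs, hxb]
  set α := x ⬝ᵥ H.mulVec a with hα
  set β := b ⬝ᵥ H.mulVec a with hβ
  have hy : (α • b - β • x) ⬝ᵥ H.mulVec a = 0 := by
    rw [sub_dotProduct, smul_dotProduct, smul_dotProduct, ← hα, ← hβ, smul_eq_mul, smul_eq_mul]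
    ring
  have hyy : (α • b - β • x) ⬝ᵥ H.mulVec (α • b - β • x) =
      α ^ 2 * H⁻¹ (Fin.last n) (Fin.last n) + β ^ 2 * (x ⬝ᵥ H.mulVec x) := by
    simp only [Matrix.mulVec_sub, Matrix.mulVec_smul, sub_dotProduct, dotProduct_sub,
      smul_dotProduct, dotProduct_smul, smul_eq_mul, hbb, hxb, hbx]
    ring
  by_cases h0 : α • b - β • x = 0
  · have h2 := congrFun h0 (Fin.last n)
    simp only [Pi.sub_apply, Pi.smul_apply, smul_eq_mul, Pi.zero_apply, hx0, mul_zero, sub_zero,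
      hb, bv_last] at h2
    have hα0 : α = 0 := (mul_eq_zero.mp h2).resolve_right hA.ne'
    exact absurd (hneg x hx (by rw [← hα, hα0])) (not_lt.mpr hcon)
  · have h2 := hneg _ h0 hy
    rw [hyy] at h2
    have h3 : 0 ≤ α ^ 2 * H⁻¹ (Fin.last n) (Fin.last n) := by positivity
    have h4 : 0 ≤ β ^ 2 * (x ⬝ᵥ H.mulVec x) := mul_nonneg (sq_nonneg _) hcon
    linarith

end Slice

section Index

variable {m : ℕ} {A : Matrix (Fin m) (Fin m) ℝ}

theorem negDef_of_posIndex (hA : A.IsHermitian) (hdet : A.det ≠ 0) (h : posIndex hA = 0) :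
    NegDef A := by
  intro x hx
  have h1 := posProj_neg hA hdet (x := x) (by rw [posProj_eq_zero hA h]; simpa using hx)
  rw [posProj_eq_zero hA h] at h1
  simpa using h1

theorem onePos_of_posIndex (hA : A.IsHermitian) (hdet : A.det ≠ 0) (h : posIndex hA = 1) :
    OnePos A := by
  obtain ⟨i, hi⟩ := Finset.card_eq_one.mp h
  have hpos : ∀ j, 0 < hA.eigenvalues j ↔ j = i := by
    intro j
    have : j ∈ (Finset.univ.filter fun i => 0 < hA.eigenvalues i) ↔
        j ∈ ({i} : Finset (Fin m)) := by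
      rw [hi]
    simpa using this
  have hi0 : 0 < hA.eigenvalues i := (hpos i).mpr rfl
  refine ⟨ev hA i, ?_, fun x hx hxi => ?_⟩
  · rw [mulVec_ev, dotProduct_smul, ev_dot, if_pos rfl, smul_eq_mul, mul_one]
    exact hi0
  · rw [mulVec_ev, dotProduct_smul, smul_eq_mul] at hxi
    have h0 : ev hA i ⬝ᵥ x = 0 := by
      rw [dotProduct_comm]
      exact (mul_eq_zero.mp hxi).resolve_left hi0.ne'
    have hP : posProj hA x = 0 := by
      rw [posProj_apply]
      refine Finset.sum_eq_zero fun j _ => ?_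
      split_ifs with hj
      · rw [(hpos j).mp hj, h0, zero_smul]
      · rfl
    have h1 := posProj_neg hA hdet (x := x) (by rw [hP]; simpa using hx)
    rwa [hP, sub_zero] at h1

theorem two_le_posIndex (hA : A.IsHermitian) (hdet : A.det ≠ 0) (h0 : ¬ NegDef A)
    (h1 : ¬ OnePos A) : 2 ≤ posIndex hA := by
  rcases Nat.lt_or_ge (posIndex hA) 2 with h | h
  · interval_cases hp : posIndex hA
    · exact absurd (negDef_of_posIndex hA hdet hp) h0
    · exact absurd (onePos_of_posIndex hA hdet hp) h1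
  · exact h

variable {c : ℝ}

theorem negDef_smul (hc : 0 < c) : NegDef (c • A) ↔ NegDef A := by
  constructor
  · intro h a ha
    have h1 := h a ha
    rw [Matrix.smul_mulVec, dotProduct_smul, smul_eq_mul] at h1
    by_contra hcon
    push Not at hcon
    have := mul_nonneg hc.le hcon
    linarith
  · intro h a ha
    rw [Matrix.smul_mulVec, dotProduct_smul, smul_eq_mul]
    exact mul_neg_of_pos_of_neg hc (h a ha)

theorem onePos_of_smul (hc : 0 < c) (h : OnePos A) : OnePos (c • A) := by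
  obtain ⟨a, ha, hneg⟩ := h
  refine ⟨a, ?_, fun x hx hxa => ?_⟩
  · rw [Matrix.smul_mulVec, dotProduct_smul, smul_eq_mul]
    exact mul_pos hc ha
  · rw [Matrix.smul_mulVec, dotProduct_smul, smul_eq_mul] at hxa ⊢
    exact mul_neg_of_pos_of_neg hc (hneg x hx ((mul_eq_zero.mp hxa).resolve_left hc.ne'))

theorem onePos_smul (hc : 0 < c) : OnePos (c • A) ↔ OnePos A := by
  refine ⟨fun h => ?_, onePos_of_smul hc⟩
  have h1 := onePos_of_smul (inv_pos.mpr hc) h
  rwa [smul_smul, inv_mul_cancel₀ hc.ne', one_smul] at h1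

end Index

end Pool.Agent.QC
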