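import Pool.Agent.QC.Ev.Basic

/-!
# MP_7c50a9_lc, 4.1: Morse theory for the components of `W_t`
-/

namespace Pool.Agent.QC.Ev

open MvPolynomial Filter Topology Set S4 Matrix

variable {n l : ℕ}

theorem morse_finite {q : RTup n l} (hc : CompLev q) {t : ℝ} (ht : t ≤ 0)
    (hreg : ∀ v, inOm q v → xC v ∉ SingF (f0 (tC (addT q t)))) : (Cmp (Wset q t)).Finite := by
  have h1 := regTime hreg
  have hF := funFam hc (le_refl t) ht
  refine finite_Cmp (Red.finite_components (isOpen_Wset q t) (hc t ht) ?_ ?_)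
  · intro x hx
    rw [mem_Wset] at hx
    exact ⟨hx.1, hx.2.le⟩
  · intro x hx
    rw [Wset_eq]
    refine h1.locConn (isOpen_OO q) ⟨⟨hx.1.1, hx.1.2⟩, ?_⟩
    rw [← Wset_eq]
    exact hx.2

theorem regularOn {q : RTup n l} {s₀ s₁ : ℝ}
    (hreg : ∀ s ∈ Ico s₀ s₁, ∀ v, inOm q v → xC v ∉ SingF (f0 (tC (addT q s)))) :
    RegularOn s₀ s₁ (WW (OO q) (ff q)) (KK (OO q) (ff q)) :=
  fun s hs _ hx => (regTime (hreg s hs)).locConn (isOpen_OO q) hx

theorem sameCmp_of {q : RTup n l} {t t' : ℝ}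
    (h : ∀ C ∈ comps (Wset q t'), ∃! U, U ∈ comps (Wset q t) ∧ U ⊆ C)
    (hsub : Wset q t ⊆ Wset q t') : SameCmp q t t' := by
  constructor
  · intro x hx
    obtain ⟨U, ⟨hU, hUC⟩, -⟩ := h _ (mem_comps hx)
    obtain ⟨y, hy⟩ := comps_nonempty hU
    exact ⟨y, comps_subset hU hy, hUC hy⟩
  · intro y hy y' hy' heq
    obtain ⟨U, -, huniq⟩ := h _ (mem_comps (hsub hy))
    have h1 := huniq _ ⟨mem_comps hy, subset_of_mem hsub (mem_comps hy) (mem_comps (hsub hy))
      (mem_connectedComponentIn hy) (mem_connectedComponentIn (hsub hy))⟩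
    have h2 := huniq _ ⟨mem_comps hy', subset_of_mem hsub (mem_comps hy') (mem_comps (hsub hy))
      (mem_connectedComponentIn hy') (heq ▸ mem_connectedComponentIn (hsub hy'))⟩
    rw [h1, h2]

theorem Wset_mono {q : RTup n l} {t t' : ℝ} (h : t ≤ t') : Wset q t ⊆ Wset q t' := by
  intro x hx
  rw [mem_Wset] at hx ⊢
  exact ⟨hx.1, hx.2.trans_le (ff_mono' h hx.1)⟩

theorem morse_reg {q : RTup n l} (hc : CompLev q) {t t' : ℝ} (ht : t < t') (ht' : t' ≤ 0)
    (hreg : ∀ s ∈ Ico t t', ∀ v, inOm q v → xC v ∉ SingF (f0 (tC (addT q s)))) :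
    SameCmp q t t' := by
  refine sameCmp_of ?_ (Wset_mono ht.le)
  rw [Wset_eq, Wset_eq]
  exact (funFam hc ht.le ht').regular fun s hs => regTime (hreg s hs)

section Event

variable {q : RTup n l} {tv t' : ℝ} {v : Fin (n + 1) → ℝ}

theorem _root_.Pool.Agent.QC.EvHyp.zero (H : EvHyp q tv t' v) : ff q (tv, v) = 0 :=
  ((sing_iff _ _).mp H.sing).1

theorem _root_.Pool.Agent.QC.EvHyp.reg (H : EvHyp q tv t' v) :
    ∀ s ∈ Ico tv t', s ≠ tv → RegTime (OO q) (ff q) s :=
  fun s hs hne => regTime fun x hx hsing => hne (H.only s hs x hx hsing).1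

theorem _root_.Pool.Agent.QC.EvHyp.regv (H : EvHyp q tv t' v) :
    ∀ x, x ≠ v → (tv, x) ∈ OO q → ff q (tv, x) = 0 → ∃ f' : (Fin (n + 1) → ℝ) →L[ℝ] ℝ,
      HasStrictFDerivAt (fun y => ff q (tv, y)) f' x ∧ f' ≠ 0 := by
  intro x hx hxO h0
  refine ⟨_, strict_ff q tv x, fun h1 => hx ?_⟩
  refine (H.only tv ⟨le_rfl, H.lt⟩ x hxO ?_).2
  rw [sing_iff]
  exact ⟨h0, h1⟩

theorem _root_.Pool.Agent.QC.EvHyp.nonDeg (H : EvHyp q tv t' v) :
    NonDeg (fun y => ff q (tv, y)) v (fderiv ℝ (fderiv ℝ (fR 0 0 (addT q tv))) v)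
      (posProj (AR_isHermitian (addT q tv) v)) :=
  nonDeg_of_det (contDiff_fR_zero _).contDiffAt H.zero ((sing_iff _ _).mp H.sing).2
    (AR_eq (addT q tv) v) (AR_isHermitian _ _) (AR_det H.det)

theorem morse_other (H : EvHyp q tv t' v) (h0 : ¬ NegDef (HR (addT q tv) v))
    (h1 : ¬ OnePos (HR (addT q tv) v)) : SameCmp q tv t' := by
  have hom : inOm (addT q tv) v := (inOm_addT q tv v).mpr H.om
  rw [negDef_HR hom] at h0
  rw [onePos_HR hom] at h1
  have h2 := two_le_posIndex (AR_isHermitian (addT q tv) v) (AR_det H.det) h0 h1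
  refine sameCmp_of ?_ (Wset_mono H.lt.le)
  rw [Wset_eq, Wset_eq]
  exact (funFam H.comp H.lt.le H.le).index_ge_two ⟨le_rfl, H.lt⟩ H.reg H.om H.regv H.nonDeg
    (posProj_two _ h2)

theorem posIndex_of_negDef {m : ℕ} {A : Matrix (Fin m) (Fin m) ℝ} (hA : A.IsHermitian)
    (h : NegDef A) : posIndex hA = 0 := by
  rw [posIndex, Finset.card_eq_zero, Finset.filter_eq_empty_iff]
  intro i _ hi
  have hne : ev hA i ≠ 0 := by
    intro h0
    have := ev_dot hA i i
    rw [h0] at this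
    simp at this
  have h1 := h _ hne
  rw [mulVec_ev, dotProduct_smul, ev_dot, if_pos rfl, smul_eq_mul, mul_one] at h1
  linarith

/-- The conclusion about components from uniqueness below all components but `C`. -/
theorem same_below {W W' : Set (Fin (n + 1) → ℝ)} (hsub : W ⊆ W') {C' : Set (Fin (n + 1) → ℝ)}
    (h : ∃! U, U ∈ comps W ∧ U ⊆ C') (hC' : C' ∈ comps W')
    {y y' : Fin (n + 1) → ℝ} (hy : y ∈ W) (hy' : y' ∈ W) (hyC : y ∈ C') (hyC' : y' ∈ C') :
    connectedComponentIn W y = connectedComponentIn W y' := by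
  obtain ⟨U, -, huniq⟩ := h
  have h1 := huniq _ ⟨mem_comps hy, subset_of_mem hsub (mem_comps hy) hC'
    (mem_connectedComponentIn hy) hyC⟩
  have h2 := huniq _ ⟨mem_comps hy', subset_of_mem hsub (mem_comps hy') hC'
    (mem_connectedComponentIn hy') hyC'⟩
  rw [h1, h2]

theorem morse_new (H : EvHyp q tv t' v) (h0 : NegDef (HR (addT q tv) v)) :
    v ∈ Wset q t' ∧ Disjoint (connectedComponentIn (Wset q t') v) (Wset q tv) ∧
    (∀ x ∈ Wset q t', x ∉ connectedComponentIn (Wset q t') v →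
      ∃ y ∈ Wset q tv, y ∈ connectedComponentIn (Wset q t') x) ∧
    ∀ y ∈ Wset q tv, ∀ y' ∈ Wset q tv,
      connectedComponentIn (Wset q t') y = connectedComponentIn (Wset q t') y' →
      connectedComponentIn (Wset q tv) y = connectedComponentIn (Wset q tv) y' := by
  have hom : inOm (addT q tv) v := (inOm_addT q tv v).mpr H.om
  rw [negDef_HR hom] at h0
  have hnd := H.nonDeg
  rw [posProj_eq_zero _ (posIndex_of_negDef _ h0)] at hnd
  obtain ⟨C, hC, hvC, hdis, hrest⟩ := (funFam H.comp H.lt.le H.le).index_zero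
    ⟨le_rfl, H.lt⟩ H.reg H.om H.regv hnd
  rw [← Wset_eq] at hC hdis
  simp only [← Wset_eq] at hrest
  have hCv := comps_eq hC hvC
  have hsub := Wset_mono (q := q) H.lt.le
  have hvW : v ∈ Wset q t' := comps_subset hC hvC
  rw [hCv] at hdis
  refine ⟨hvW, hdis, ?_, ?_⟩
  · intro x hx hxv
    have hne : connectedComponentIn (Wset q t') x ≠ C := by
      intro heq
      rw [hCv] at heq
      exact hxv (heq ▸ mem_connectedComponentIn hx)
    obtain ⟨U, ⟨hU, hUC⟩, -⟩ := hrest _ (mem_comps hx) hne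
    obtain ⟨y, hy⟩ := comps_nonempty hU
    exact ⟨y, comps_subset hU hy, hUC hy⟩
  · intro y hy y' hy' heq
    have hne : connectedComponentIn (Wset q t') y ≠ C := by
      intro h2
      rw [hCv] at h2
      exact disjoint_left.mp hdis (h2 ▸ mem_connectedComponentIn (hsub hy)) hy
    exact same_below hsub (hrest _ (mem_comps (hsub hy)) hne) (mem_comps (hsub hy)) hy hy'
      (mem_connectedComponentIn (hsub hy)) (heq ▸ mem_connectedComponentIn (hsub hy'))

/-! ## Index one -/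

/-- Projection onto the last coordinate along the slice. -/
noncomputable def pA (e : Fin (n + 1) → ℝ) : (Fin (n + 1) → ℝ) →L[ℝ] (Fin (n + 1) → ℝ) :=
  (ContinuousLinearMap.proj (R := ℝ) (φ := fun _ : Fin (n + 1) => ℝ) (Fin.last n)).smulRight e

theorem pA_apply (e x : Fin (n + 1) → ℝ) : pA e x = x (Fin.last n) • e := rfl

theorem nonDeg_slice (H : EvHyp q tv t' v) (h1 : OnePos (HR (addT q tv) v))
    (hA : 0 < ((HR (addT q tv) v)⁻¹ : Matrix _ _ ℝ) (Fin.last n) (Fin.last n)) :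
    ∃ e : Fin (n + 1) → ℝ, e (Fin.last n) = 1 ∧
      NonDeg (fun y => ff q (tv, y)) v (fderiv ℝ (fderiv ℝ (fR 0 0 (addT q tv))) v) (pA e) := by
  have hom : inOm (addT q tv) v := (inOm_addT q tv v).mpr H.om
  set K := HR (addT q tv) v with hK
  have hπ := piR_pos hom
  have hAR : AR (addT q tv) v = piR (addT q tv) v • K := by
    rw [hK, HR_eq, smul_smul, mul_inv_cancel₀ hπ.ne', one_smul]
  have hB : ∀ x y, fderiv ℝ (fderiv ℝ (fR 0 0 (addT q tv))) v x y =
      piR (addT q tv) v * (x ⬝ᵥ K.mulVec y) := by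
    intro x y
    rw [bilin_eq (AR_eq (addT q tv) v), hAR, Matrix.smul_mulVec, dotProduct_smul, smul_eq_mul]
  set b := bv K with hb
  set κ := (K⁻¹ : Matrix _ _ ℝ) (Fin.last n) (Fin.last n) with hκ
  have hbl : b (Fin.last n) = κ := by rw [hb, bv_last]
  refine ⟨κ⁻¹ • b, ?_, ?_⟩
  · rw [Pi.smul_apply, hbl, smul_eq_mul, inv_mul_cancel₀ hA.ne']
  · refine ⟨H.zero, H.nonDeg.deriv, ?_, ?_, ?_⟩
    · intro x
      simp only [pA_apply, Pi.smul_apply, hbl, smul_eq_mul]
      rw [inv_mul_cancel₀ hA.ne', mul_one]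
    · intro x hx
      rw [pA_apply] at hx ⊢
      have hx0 : x (Fin.last n) ≠ 0 := by
        intro h0
        rw [h0, zero_smul] at hx
        exact hx rfl
      rw [smul_smul, hB, Matrix.mulVec_smul, smul_dotProduct, dotProduct_smul, dot_mulVec_bv hA,
        hbl]
      simp only [smul_eq_mul]
      have h2 : 0 < x (Fin.last n) * x (Fin.last n) := mul_self_pos.mpr hx0
      have h3 : piR (addT q tv) v * (x (Fin.last n) * κ⁻¹ * (x (Fin.last n) * κ⁻¹ * κ)) =
          x (Fin.last n) * x (Fin.last n) * (κ⁻¹ * piR (addT q tv) v) := by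
        field_simp
      rw [h3]
      exact mul_pos h2 (mul_pos (inv_pos.mpr hA) hπ)
    · intro x hx
      rw [hB]
      refine mul_neg_of_pos_of_neg hπ (slice_neg (HR_isSymm _ _) h1 hA hx ?_)
      rw [Pi.sub_apply, pA_apply, Pi.smul_apply, Pi.smul_apply, hbl, smul_eq_mul, smul_eq_mul,
        inv_mul_cancel₀ hA.ne', mul_one, sub_self]

end Event

end Pool.Agent.QC.Ev
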